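import Pool.Agent.H561.PG.P5
import Pool.Agent.H561.Q4.V3

set_option autoImplicit false

/-! Exponential sums of a quadratic polynomial over a short window `(m, m + y]`, `y` a little larger than `√m`: they are
small away from the fractions with small denominators. -/

namespace Pool.Agent.H561.HO

open Finset Polynomial
open Pool.Agent.H561.CM
open Pool.Agent.H561.PG
open Pool.Agent.H807R2.Dav (ee norm_ee ee_add ee_int ee_zero ee_eq)
open Pool.Agent.H49.FD (Dg nr weyl vin)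
open Pool.Agent.H373R2.T7 (ev_log' ev_L')

/-- the increments of `a x ^ 2 + b x` from the point `m` -/
noncomputable def GW (a b : ℤ) (m : ℕ) : ℤ[X] := C a * X ^ 2 + C (2 * a * m + b) * X

lemma gv_GW (a b : ℤ) (m t : ℕ) : gv (GW a b m) t = a * (t : ℤ) ^ 2 + (2 * a * m + b) * t := by
  unfold gv GW
  simp

lemma GW_deg (a b : ℤ) (m : ℕ) : (GW a b m).natDegree ≤ 2 := by
  unfold GW
  have : C a * X ^ 2 + C (2 * a * m + b) * X = C a * X ^ 2 + C (2 * a * m + b) * X + C (0 : ℤ) := by simp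
  rw [this]
  exact natDegree_quadratic_le

lemma GW_coeff (a b : ℤ) (m : ℕ) : (GW a b m).coeff 2 = a := by
  unfold GW
  rw [coeff_add, coeff_C_mul, coeff_C_mul, coeff_X_pow, coeff_X]
  norm_num

lemma sum_res (f : ℕ → ℂ) (y Q : ℕ) (hQ : 1 ≤ Q) :
    ∑ n ∈ range y, f n = ∑ s ∈ range Q, ∑ j ∈ range ((y + Q - 1 - s) / Q), f (s + Q * j) := by
  rw [sum_sigma']
  symm
  apply sum_nbij' (fun x : (_ : ℕ) × ℕ => x.1 + Q * x.2) (fun n => ⟨n % Q, n / Q⟩)
  · rintro ⟨s, j⟩ h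
    simp only [mem_sigma, mem_range] at h ⊢
    obtain ⟨h1, h2⟩ := h
    rw [Nat.lt_iff_add_one_le, Nat.le_div_iff_mul_le (by omega)] at h2
    have : (j + 1) * Q = Q * j + Q := by ring
    omega
  · intro n hn
    simp only [mem_sigma, mem_range] at hn ⊢
    refine ⟨Nat.mod_lt _ (by omega), ?_⟩
    rw [Nat.lt_iff_add_one_le, Nat.le_div_iff_mul_le (by omega)]
    have h1 := Nat.mod_add_div n Q
    have h2 : (n / Q + 1) * Q = Q * (n / Q) + Q := by ring
    have h3 := Nat.mod_lt n (show 0 < Q by omega)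
    omega
  · rintro ⟨s, j⟩ h
    simp only [mem_sigma, mem_range] at h
    obtain ⟨h1, h2⟩ := h
    have e1 : (s + Q * j) % Q = s := by
      rw [Nat.add_mul_mod_self_left, Nat.mod_eq_of_lt h1]
    have e2 : (s + Q * j) / Q = j := by
      rw [Nat.add_mul_div_left _ _ (by omega), Nat.div_eq_of_lt h1, zero_add]
    simp only [e1, e2]
  · intro n _
    exact Nat.mod_add_div n Q
  · intro x _
    rfl

lemma kle_eq (x : ℝ) : Pool.Agent.R377.KL.e x = ee x := by
  unfold Pool.Agent.R377.KL.e ee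
  rfl

/-- one residue class, `β > 0` -/
lemma cls_pos (a b : ℤ) (ha : 0 < a) (m M Q s n : ℕ) (hm : b.natAbs + 1 ≤ m) (hQ : 1 ≤ Q) (β : ℝ) (hβ : 0 < β)
    (hn : ∀ j < n, s + Q * j + 1 ≤ M)
    (hsm : β * (Q * (2 * a * (m + M) + a * Q + |(b : ℝ)|)) ≤ 3 / 4) :
    ‖∑ j ∈ range n, ee (β * ((gv (GW a b m) (s + Q * j + 1) : ℤ) : ℝ))‖ ≤ 2 + 1 / (β * (Q * m)) := by
  have ha1 : (1 : ℝ) ≤ a := by exact_mod_cast ha
  have hmb : |(b : ℝ)| + 1 ≤ m := by
    have : ((b.natAbs + 1 : ℕ) : ℝ) ≤ m := by exact_mod_cast hm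
    rw [Nat.cast_add, Nat.cast_one, Nat.cast_natAbs, Int.cast_abs] at this
    exact this
  have hb := neg_abs_le (b : ℝ)
  have hb' := le_abs_self (b : ℝ)
  have hb0 := abs_nonneg (b : ℝ)
  have hQ1 : (1 : ℝ) ≤ Q := by exact_mod_cast hQ
  have hm0 : (0 : ℝ) < m := by linarith
  have hD : ∀ j : ℕ, β * ((gv (GW a b m) (s + Q * (j + 1) + 1) : ℤ) : ℝ) - β * ((gv (GW a b m) (s + Q * j + 1) : ℤ) : ℝ) =
      β * (Q * (2 * a * (m + (s + Q * j + 1)) + a * Q + b)) := by
    intro j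
    rw [gv_GW, gv_GW]
    push_cast
    ring
  have h1 := Pool.Agent.R377.KL.kl (fun j => β * ((gv (GW a b m) (s + Q * j + 1) : ℤ) : ℝ)) n (β * (Q * (a * m))) (by positivity)
    (by
      intro k _
      have e1 := hD k
      have e2 := hD (k + 1)
      rw [e1, show s + Q * (k + 2) + 1 = s + Q * (k + 1 + 1) + 1 by ring, e2]
      apply mul_le_mul_of_nonneg_left _ hβ.le
      apply mul_le_mul_of_nonneg_left _ (by linarith)
      push_cast
      nlinarith [mul_nonneg (show (0 : ℝ) ≤ a by linarith) (show (0 : ℝ) ≤ Q by linarith)])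
    (by
      intro k _
      rw [hD k]
      apply mul_le_mul_of_nonneg_left _ hβ.le
      apply mul_le_mul_of_nonneg_left _ (by linarith)
      have e1 : (0 : ℝ) ≤ a * (s + Q * k + 1) := by positivity
      have e2 : (0 : ℝ) ≤ a * Q := by positivity
      have e3 : (m : ℝ) ≤ a * m := le_mul_of_one_le_left hm0.le ha1
      nlinarith)
    (by
      intro k hk
      rw [hD k]
      refine le_trans ?_ hsm
      apply mul_le_mul_of_nonneg_left _ hβ.le
      apply mul_le_mul_of_nonneg_left _ (by linarith)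
      have e0 : ((s + Q * k + 1 : ℕ) : ℝ) ≤ M := by exact_mod_cast hn k hk
      push_cast at e0
      have e1 : 2 * (a : ℝ) * (m + (s + Q * k + 1)) ≤ 2 * a * (m + M) := by
        apply mul_le_mul_of_nonneg_left _ (by linarith)
        linarith
      linarith)
  simp only [kle_eq] at h1
  refine h1.trans ?_
  have hpi := Real.pi_gt_three
  have h2 : 1 / (Real.pi * (β * (Q * (a * m)))) ≤ 1 / (β * (Q * m)) := by
    apply one_div_le_one_div_of_le (by positivity)
    have e1 : β * (Q * m) ≤ β * (Q * (a * m)) := by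
      apply mul_le_mul_of_nonneg_left _ hβ.le
      apply mul_le_mul_of_nonneg_left _ (by linarith)
      exact le_mul_of_one_le_left hm0.le ha1
    have e2 : 0 ≤ β * (Q * (a * m)) := by positivity
    nlinarith
  linarith

lemma ee_norm_neg {ι : Type*} (s : Finset ι) (x : ι → ℝ) : ‖∑ k ∈ s, ee (-(x k))‖ = ‖∑ k ∈ s, ee (x k)‖ := by
  rw [← Complex.norm_conj (∑ k ∈ s, ee (x k)), map_sum]
  congr 1
  apply sum_congr rfl
  intro k _
  rw [ee_eq, ee_eq, ← Complex.exp_conj]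
  congr 1
  simp only [map_mul, Complex.conj_ofReal, Complex.conj_I]
  push_cast
  ring

/-- one residue class -/
lemma cls_all (a b : ℤ) (ha : 0 < a) (m M Q s n : ℕ) (hm : b.natAbs + 1 ≤ m) (hQ : 1 ≤ Q) (β : ℝ) (hβ : β ≠ 0)
    (hn : ∀ j < n, s + Q * j + 1 ≤ M)
    (hsm : |β| * (Q * (2 * a * (m + M) + a * Q + |(b : ℝ)|)) ≤ 3 / 4) :
    ‖∑ j ∈ range n, ee (β * ((gv (GW a b m) (s + Q * j + 1) : ℤ) : ℝ))‖ ≤ 2 + 1 / (|β| * (Q * m)) := by
  rcases lt_or_gt_of_ne hβ with h | h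
  · have h1 := cls_pos a b ha m M Q s n hm hQ (-β) (by linarith) hn (by rwa [abs_of_neg h] at hsm)
    rw [abs_of_neg h]
    refine le_trans (le_of_eq ?_) h1
    rw [← ee_norm_neg]
    congr 1
    apply sum_congr rfl
    intro j _
    congr 1
    ring
  · rw [abs_of_pos h] at hsm ⊢
    exact cls_pos a b ha m M Q s n hm hQ β h hn hsm

/-- the sum over the window near a fraction -/
lemma near_frac (a b : ℤ) (ha : 0 < a) (m M Q y : ℕ) (hm : b.natAbs + 1 ≤ m) (hQ : 1 ≤ Q) (hy : y ≤ M) (c : ℤ) (β : ℝ)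
    (hβ : β ≠ 0) (hsm : |β| * (Q * (2 * a * (m + M) + a * Q + |(b : ℝ)|)) ≤ 3 / 4) :
    ‖∑ n ∈ range y, ee (((c : ℝ) / Q + β) * ((gv (GW a b m) (n + 1) : ℤ) : ℝ))‖ ≤ 2 * Q + 1 / (|β| * m) := by
  have hQ0 : (0 : ℝ) < Q := by exact_mod_cast hQ
  have hm0 : (0 : ℝ) < m := by exact_mod_cast (by omega : 0 < m)
  have hβ0 : 0 < |β| := abs_pos.2 hβ
  rw [sum_res _ y Q hQ]
  refine (norm_sum_le _ _).trans ?_
  have h1 : ∀ s ∈ range Q, ‖∑ j ∈ range ((y + Q - 1 - s) / Q), ee (((c : ℝ) / Q + β) * ((gv (GW a b m) (s + Q * j + 1) : ℤ) : ℝ))‖ ≤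
      2 + 1 / (|β| * (Q * m)) := by
    intro s hs
    have h2 := cls_all a b ha m M Q s ((y + Q - 1 - s) / Q) hm hQ β hβ (by
      intro j hj
      rw [Nat.lt_iff_add_one_le, Nat.le_div_iff_mul_le (by omega)] at hj
      have : (j + 1) * Q = Q * j + Q := by ring
      rw [mem_range] at hs
      omega) hsm
    refine le_trans (le_of_eq ?_) h2
    have h3 : ∀ j : ℕ, ee (((c : ℝ) / Q + β) * ((gv (GW a b m) (s + Q * j + 1) : ℤ) : ℝ)) =
        ee ((c : ℝ) / Q * ((gv (GW a b m) (s + 1) : ℤ) : ℝ)) * ee (β * ((gv (GW a b m) (s + Q * j + 1) : ℤ) : ℝ)) := by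
      intro j
      obtain ⟨w, hw⟩ : ∃ w : ℤ, gv (GW a b m) (s + Q * j + 1) = gv (GW a b m) (s + 1) + Q * w := by
        refine ⟨a * (2 * (s + 1) * j + Q * j ^ 2) + (2 * a * m + b) * j, ?_⟩
        rw [gv_GW, gv_GW]
        push_cast
        ring
      have e1 : ((c : ℝ) / Q + β) * ((gv (GW a b m) (s + Q * j + 1) : ℤ) : ℝ) =
          ((c * w : ℤ) : ℝ) + ((c : ℝ) / Q * ((gv (GW a b m) (s + 1) : ℤ) : ℝ) + β * ((gv (GW a b m) (s + Q * j + 1) : ℤ) : ℝ)) := by
        rw [add_mul]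
        have : (c : ℝ) / Q * ((gv (GW a b m) (s + Q * j + 1) : ℤ) : ℝ) =
            ((c * w : ℤ) : ℝ) + (c : ℝ) / Q * ((gv (GW a b m) (s + 1) : ℤ) : ℝ) := by
          rw [hw]
          push_cast
          field_simp
          ring
        rw [this]
        ring
      rw [e1, ee_add, ee_int, one_mul, ee_add]
    simp only [h3]
    rw [← mul_sum, norm_mul, norm_ee, one_mul]
  refine (sum_le_sum h1).trans (le_of_eq ?_)
  rw [sum_const, card_range, nsmul_eq_mul]
  field_simp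

end Pool.Agent.H561.HO
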