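import Pool.Agent.H561.HO.W1

set_option autoImplicit false

/-! The two alternatives for the exponential sum of a quadratic polynomial over a short window, and the mean square. -/

namespace Pool.Agent.H561.HO

open Finset Polynomial
open Pool.Agent.H561.CM
open Pool.Agent.H561.PG
open Pool.Agent.H807R2.Dav (ee norm_ee ee_add ee_int ee_zero ee_eq)
open Pool.Agent.H49.FD (Dg nr weyl vin)
open Pool.Agent.H373R2.T7 (ev_log' ev_L')
open Pool.Agent.helper24_UT (NN Ed)

theorem maj_win (a b : ℤ) (ha : 0 < a) (A₁ : ℕ) (hA₁ : 1 ≤ A₁) (θ : ℝ) (hθ : 0 < θ) : ∃ K B X₀ : ℕ, ∀ X : ℕ, X₀ ≤ X →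
    ∀ m M : ℕ, (X : ℝ) ^ θ ≤ M → M ≤ X → (m : ℝ) * Real.log X ^ B ≤ (M : ℝ) ^ 2 → ∀ y : ℕ, y ≤ M → ∀ P : ℕ,
    (∀ t ∈ Icc 1 y, 1 ≤ gv (GW a b m) t ∧ gv (GW a b m) t ≤ P) → ∀ H : ℕ, (H : ℝ) * Real.log X ^ K ≤ M * (m + M) →
    Maj P H ⌊Real.log X ^ K⌋₊ (psh (gv (GW a b m)) (fun _ => 1) y) M (M / Real.log X ^ A₁) := by
  obtain ⟨C, hC⟩ := weyl 1
  obtain ⟨a', ha'⟩ : ∃ a' : ℕ, a' = a.toNat := ⟨_, rfl⟩
  have ha'Z : (a' : ℤ) = a := by rw [ha']; exact Int.toNat_of_nonneg ha.le
  have ha'r : (a : ℝ) = a' := by exact_mod_cast ha'Z.symm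
  have ha'1 : 1 ≤ a' := by omega
  have ha'1r : (1 : ℝ) ≤ a' := by exact_mod_cast ha'1
  obtain ⟨b', hb'⟩ : ∃ b' : ℕ, b' = b.natAbs := ⟨_, rfl⟩
  have hb'r : |(b : ℝ)| = b' := by rw [hb', Nat.cast_natAbs, Int.cast_abs]
  have hb0 : (0 : ℝ) ≤ b' := Nat.cast_nonneg _
  obtain ⟨n1, h1⟩ := ev_L' (100 + 6 * a' + b')
  obtain ⟨n2, h2⟩ := Filter.eventually_atTop.1 (Pool.Agent.helper24_UT.Sil2.ev_pow (A₁ * C + A₁ + 2) θ 16 hθ)
  refine ⟨A₁ * C + A₁ + 1, 2 * (A₁ * C) + 3, n1 + n2 + 1, fun X hX m M hM1 hM2 hmM y hy P hP H hH => ?_⟩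
  have hL := h1 X (by omega)
  have a2 := h2 X (by omega)
  obtain ⟨L, hLd⟩ : ∃ L, L = Real.log (X : ℝ) := ⟨_, rfl⟩
  rw [← hLd] at hL a2 hH hmM ⊢
  have hL100 : 100 ≤ L := by linarith
  have hL1 : 1 ≤ L := by linarith
  have hL0 : 0 < L := by linarith
  have hy0 : (y : ℝ) ≤ M := by exact_mod_cast hy
  have hbig0 : 16 * L ^ (A₁ * C + A₁ + 2) ≤ M := a2.trans hM1
  have hLp : 1 ≤ L ^ (A₁ * C + A₁ + 2) := one_le_pow₀ hL1
  have hM0 : (0 : ℝ) < M := by linarith
  have hgb : ∀ α : ℝ, ht (Ioc 0 (P : ℤ)) (fun n => (psh (gv (GW a b m)) (fun _ => 1) y n : ℂ)) α =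
      ∑ n ∈ range y, ee (α * ((gv (GW a b m) (n + 1) : ℤ) : ℝ)) := by
    intro α
    rw [psh_ht (gv (GW a b m)) (fun _ => 1) y P hP α]
    rw [Pool.Agent.H561.PG.sum_shift]
    apply sum_congr rfl
    intro n _
    rw [Complex.ofReal_one, one_mul, mul_comm]
  constructor
  · intro α
    rw [hgb]
    refine (norm_sum_le _ _).trans ?_
    have : ∀ n ∈ range y, ‖ee (α * ((gv (GW a b m) (n + 1) : ℤ) : ℝ))‖ ≤ 1 := by
      intro n _
      rw [norm_ee]
    refine (sum_le_card_nsmul _ _ _ this).trans ?_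
    rw [card_range, nsmul_eq_mul, mul_one]
    exact hy0
  · intro α
    rw [hgb]
    by_cases hbig : (M : ℝ) / L ^ A₁ ≤ ‖∑ n ∈ range y, ee (α * ((gv (GW a b m) (n + 1) : ℤ) : ℝ))‖
    · right
      have hD2 : (2 : ℝ) ≤ L ^ A₁ := by
        calc (2 : ℝ) ≤ L := by linarith
          _ ≤ L ^ A₁ := le_self_pow₀ hL1 (by omega)
      have hDM : (L ^ A₁) ^ C ≤ M := by
        rw [← pow_mul]
        refine le_trans ?_ hbig0
        refine (pow_le_pow_right₀ hL1 (by omega : A₁ * C ≤ A₁ * C + A₁ + 2)).trans ?_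
        linarith
      have hbig' : (M : ℝ) / L ^ A₁ ≤ ‖∑ n ∈ range y, Pool.Agent.H49.MD.e (α * ((gv (GW a b m) (n + 1) : ℤ) : ℝ))‖ := by
        refine hbig.trans (le_of_eq ?_)
        congr 1
        apply sum_congr rfl
        intro n _
        rw [e_eq]
      have hlead : 0 < (GW a b m).coeff (1 + 1) := by
        rw [show 1 + 1 = 2 by norm_num, GW_coeff]
        exact ha
      obtain ⟨q, hq0, hq1, hq2⟩ := hC (L ^ A₁) hD2 M y hDM hy _ _ (poly_Dg1 (GW a b m) (1 + 1) (GW_deg a b m) α) hbig'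
      obtain ⟨c, hc⟩ := appr hlead hq0 hq2
      have hcoe : ((GW a b m).coeff (1 + 1)).toNat = a' := by
        rw [show 1 + 1 = 2 by norm_num, GW_coeff, ha']
      rw [hcoe] at hc
      obtain ⟨Q, hQ⟩ : ∃ Q, Q = q * ((1 + 1).factorial * a') := ⟨_, rfl⟩
      rw [← hQ] at hc
      have hQ2 : Q = q * (2 * a') := by
        rw [hQ]
        rfl
      have hQ1 : 1 ≤ Q := by
        rw [hQ2]
        have : 0 < q * (2 * a') := Nat.mul_pos hq0 (by omega)
        omega
      have hQ1r : (1 : ℝ) ≤ Q := by exact_mod_cast hQ1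
      have hQL : (Q : ℝ) ≤ L ^ (A₁ * C + 1) := by
        rw [hQ2]
        push_cast
        calc (q : ℝ) * (2 * a') ≤ (L ^ A₁) ^ C * L := by
              apply mul_le_mul hq1 _ (by positivity) (by positivity)
              linarith
          _ = L ^ (A₁ * C + 1) := by rw [← pow_mul, pow_succ]
      refine ⟨Q, mem_Icc.2 ⟨hQ1, Nat.le_floor (hQL.trans (pow_le_pow_right₀ hL1 (by omega)))⟩, c, ?_⟩
      obtain ⟨β, hβ⟩ : ∃ β, β = α - (c : ℝ) / Q := ⟨_, rfl⟩
      rw [← hβ] at hc ⊢
      rw [← pow_mul] at hc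
      by_contra hcon
      push Not at hcon
      have hH0 : (0 : ℝ) < H := by
        rcases (Nat.cast_nonneg H : (0 : ℝ) ≤ H).eq_or_lt with h | h
        · rw [← h] at hcon
          norm_num at hcon
        · exact h
      have hβ0 : 0 < |β| := by
        by_contra h
        have : |β| = 0 := le_antisymm (not_lt.1 h) (abs_nonneg _)
        rw [this] at hcon
        norm_num at hcon
      have hβne : β ≠ 0 := abs_pos.1 hβ0
      have hLK0 : 0 < L ^ (A₁ * C + A₁ + 1) := by positivity
      rcases le_or_gt m M with hmM' | hmM'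
      · -- long windows
        have hm' : (m : ℝ) ≤ M := by exact_mod_cast hmM'
        have h3 : (H : ℝ) * L ^ (A₁ * C + A₁ + 1) ≤ 2 * (M : ℝ) ^ 2 := by
          refine hH.trans ?_
          nlinarith
        have h4 : |β| * (M : ℝ) ^ 2 ≤ L ^ (A₁ * C) := by
          rwa [le_div_iff₀ (by positivity)] at hc
        have h5 : L ^ (A₁ * C + A₁ + 1) < 12 * L ^ (A₁ * C) := by
          calc L ^ (A₁ * C + A₁ + 1) = 1 * L ^ (A₁ * C + A₁ + 1) := by ring
            _ < |β| * (6 * H) * L ^ (A₁ * C + A₁ + 1) := mul_lt_mul_of_pos_right hcon hLK0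
            _ = 6 * |β| * (H * L ^ (A₁ * C + A₁ + 1)) := by ring
            _ ≤ 6 * |β| * (2 * (M : ℝ) ^ 2) := mul_le_mul_of_nonneg_left h3 (by positivity)
            _ = 12 * (|β| * (M : ℝ) ^ 2) := by ring
            _ ≤ _ := by linarith
        have h6 : 12 * L ^ (A₁ * C) ≤ L ^ (A₁ * C + A₁ + 1) := by
          rw [show A₁ * C + A₁ + 1 = (A₁ + 1) + A₁ * C by ring, pow_add]
          apply mul_le_mul_of_nonneg_right _ (by positivity)
          calc (12 : ℝ) ≤ L := by linarith
            _ ≤ L ^ (A₁ + 1) := le_self_pow₀ hL1 (by omega)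
        linarith
      · -- short windows
        have hmM'' : (M : ℝ) < m := by exact_mod_cast hmM'
        have hm0 : (0 : ℝ) < m := by linarith
        have hLle : L ≤ L ^ (A₁ * C + A₁ + 2) := le_self_pow₀ hL1 (by omega)
        have hm : b.natAbs + 1 ≤ m := by
          have : ((b.natAbs + 1 : ℕ) : ℝ) ≤ m := by
            rw [← hb']
            push_cast
            linarith
          exact_mod_cast this
        have hQm : (Q : ℝ) ≤ m := by
          refine hQL.trans ?_
          refine (pow_le_pow_right₀ hL1 (by omega : A₁ * C + 1 ≤ A₁ * C + A₁ + 2)).trans ?_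
          linarith
        have h4 : |β| ≤ L ^ (A₁ * C) / (M : ℝ) ^ 2 := hc
        have hsm : |β| * (Q * (2 * a * (m + M) + a * Q + |(b : ℝ)|)) ≤ 3 / 4 := by
          have e1 : 2 * (a : ℝ) * (m + M) + a * Q + |(b : ℝ)| ≤ L * m := by
            rw [ha'r, hb'r]
            have f1 : 2 * (a' : ℝ) * (m + M) ≤ 2 * a' * (m + m) := by
              apply mul_le_mul_of_nonneg_left _ (by positivity)
              linarith
            have f2 : (a' : ℝ) * Q ≤ a' * m := mul_le_mul_of_nonneg_left hQm (by positivity)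
            have f3 : (b' : ℝ) ≤ a' * m := by
              have : (b' : ℝ) ≤ m := by linarith
              nlinarith
            have f4 : 6 * (a' : ℝ) * m ≤ L * m := by
              apply mul_le_mul_of_nonneg_right _ hm0.le
              linarith
            nlinarith
          calc |β| * (Q * (2 * a * (m + M) + a * Q + |(b : ℝ)|)) ≤
                (L ^ (A₁ * C) / (M : ℝ) ^ 2) * (L ^ (A₁ * C + 1) * (L * m)) := by
                apply mul_le_mul h4 _ _ (by positivity)
                · apply mul_le_mul hQL e1 _ (by positivity)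
                  have := abs_nonneg (b : ℝ)
                  rw [ha'r]
                  positivity
                · have := abs_nonneg (b : ℝ)
                  rw [ha'r]
                  positivity
            _ = (m * L ^ (2 * (A₁ * C) + 2)) / (M : ℝ) ^ 2 := by
                rw [show 2 * (A₁ * C) + 2 = A₁ * C + (A₁ * C + 1) + 1 by ring, pow_succ L (A₁ * C + (A₁ * C + 1)),
                  pow_add L (A₁ * C) (A₁ * C + 1)]
                field_simp
            _ ≤ 1 / L := by
                rw [div_le_div_iff₀ (by positivity) hL0, one_mul]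
                calc m * L ^ (2 * (A₁ * C) + 2) * L = m * L ^ (2 * (A₁ * C) + 3) := by ring
                  _ ≤ _ := hmM
            _ ≤ 3 / 4 := by
                rw [div_le_iff₀ hL0]
                linarith
        have h7 := near_frac a b ha m M Q y hm hQ1 hy c β hβne hsm
        have h8 : (c : ℝ) / Q + β = α := by rw [hβ]; ring
        rw [h8] at h7
        have h9 : 1 / (|β| * m) ≤ 12 * (M / L ^ (A₁ * C + A₁ + 1)) := by
          have g1 : 1 / (|β| * m) ≤ 6 * H / m := by
            rw [div_le_div_iff₀ (by positivity) hm0]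
            nlinarith
          refine g1.trans ?_
          rw [div_le_iff₀ hm0]
          have g2 : (H : ℝ) ≤ M * (m + M) / L ^ (A₁ * C + A₁ + 1) := by
            rwa [le_div_iff₀ hLK0]
          calc 6 * (H : ℝ) ≤ 6 * (M * (m + M) / L ^ (A₁ * C + A₁ + 1)) := by linarith
            _ ≤ 6 * (M * (m + m) / L ^ (A₁ * C + A₁ + 1)) := by
                apply mul_le_mul_of_nonneg_left _ (by norm_num)
                apply div_le_div_of_nonneg_right _ hLK0.le
                apply mul_le_mul_of_nonneg_left _ hM0.le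
                linarith
            _ = _ := by ring
        have hA0 : 0 < L ^ A₁ := by positivity
        have h10 : 12 * ((M : ℝ) / L ^ (A₁ * C + A₁ + 1)) ≤ (1 / 4) * (M / L ^ A₁) := by
          have e1 : (M : ℝ) / L ^ (A₁ * C + A₁ + 1) ≤ (M / L ^ A₁) * (1 / L) := by
            rw [div_mul_div_comm, mul_one, ← pow_succ]
            apply div_le_div_of_nonneg_left hM0.le (by positivity)
            exact pow_le_pow_right₀ hL1 (by omega)
          have e2 : 1 / L ≤ 1 / 48 := one_div_le_one_div_of_le (by norm_num) (by linarith)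
          have e3 : 0 ≤ (M : ℝ) / L ^ A₁ := by positivity
          nlinarith
        have h11 : 2 * (Q : ℝ) ≤ (1 / 4) * (M / L ^ A₁) := by
          rw [mul_div_assoc', le_div_iff₀ hA0]
          have : 2 * (Q : ℝ) * L ^ A₁ ≤ 2 * L ^ (A₁ * C + A₁ + 2) := by
            calc 2 * (Q : ℝ) * L ^ A₁ ≤ 2 * L ^ (A₁ * C + 1) * L ^ A₁ := by
                  apply mul_le_mul_of_nonneg_right _ hA0.le
                  linarith
              _ = 2 * L ^ (A₁ * C + A₁ + 1) := by rw [mul_assoc, ← pow_add]; congr 2; ring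
              _ ≤ _ := by
                  have := pow_le_pow_right₀ hL1 (show A₁ * C + A₁ + 1 ≤ A₁ * C + A₁ + 2 by omega)
                  linarith
          linarith
        have h12 : 0 < (M : ℝ) / L ^ A₁ := by positivity
        have := hbig.trans h7
        linarith
    · left
      exact (not_le.1 hbig).le

end Pool.Agent.H561.HO
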