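import Pool.Agent.H561.HO.W2

set_option autoImplicit false

/-! The mean square for short windows of a quadratic polynomial. -/

namespace Pool.Agent.H561.HO

open Finset Polynomial
open Pool.Agent.H561.CM
open Pool.Agent.H561.PG
open Pool.Agent.H373R2.T7 (ev_log' ev_L')
open Pool.Agent.helper24_UT (NN Ed)

lemma GW_pos (a b : ℤ) (ha : 0 < a) (m : ℕ) (hm : b.natAbs + 1 ≤ m) (t : ℕ) (ht : 1 ≤ t) : 1 ≤ gv (GW a b m) t := by
  rw [gv_GW]
  have h1 : (1 : ℤ) ≤ t := by exact_mod_cast ht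
  have h2 : -b ≤ m := by omega
  have hm0 : (0 : ℤ) ≤ m := by positivity
  have h3 : (m : ℤ) ≤ a * m := le_mul_of_one_le_left hm0 ha
  have h4 : (0 : ℤ) ≤ (2 * a * m + b) * t := by
    apply mul_nonneg _ (by omega)
    nlinarith
  have h5 : (1 : ℤ) ≤ a * (t : ℤ) ^ 2 := by nlinarith
  linarith

lemma GW_le (a b : ℤ) (ha : 0 < a) (m : ℕ) (hm : b.natAbs + 1 ≤ m) (t : ℕ) :
    gv (GW a b m) t ≤ 3 * a * (t * (m + t)) := by
  rw [gv_GW]
  have h0 : (0 : ℤ) ≤ t := by positivity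
  have h2 : b ≤ m := by omega
  have hm0 : (0 : ℤ) ≤ m := by positivity
  have h3 : (m : ℤ) ≤ a * m := le_mul_of_one_le_left hm0 ha
  have h4 : (b : ℤ) * t ≤ (a * m) * t := mul_le_mul_of_nonneg_right (by linarith) h0
  have h5 : (0 : ℤ) ≤ a * (t : ℤ) ^ 2 := by positivity
  nlinarith

/-- **The mean square.** -/
theorem ms_win (a b : ℤ) (ha : 0 < a) (e A : ℕ) (he : 5 ≤ e) (θ : ℝ) (hθ : 0 < θ) : ∃ E₀ D B : ℕ, 1 ≤ D ∧
    ∀ E₁ : ℕ, ∃ X₀ : ℕ, ∀ X : ℕ, X₀ ≤ X → ∀ z : ℕ, Real.log X ^ E₀ ≤ z → (z : ℝ) ≤ Real.log X ^ E₁ → ∀ m M : ℕ,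
    b.natAbs + 1 ≤ m → (X : ℝ) ^ θ ≤ M → (m : ℝ) * Real.log X ^ B ≤ (M : ℝ) ^ 2 →
    (X : ℝ) ^ (1 / 4 + 4 / e : ℝ) ≤ M * (m + M) → (M : ℝ) * (m + M) * Real.log X ^ D ≤ X → ∀ y : ℕ, y ≤ M →
    ∑ N ∈ Icc 1 (2 * X), (∑ t ∈ Icc 1 y, Ed z ((N : ℤ) - gv (GW a b m) t)) ^ 2 ≤ X * (M : ℝ) ^ 2 / Real.log X ^ A ∧
    ∑ N ∈ Icc 1 X, (∑ t ∈ Icc 1 y, Ed z ((N : ℤ) + gv (GW a b m) t)) ^ 2 ≤ X * (M : ℝ) ^ 2 / Real.log X ^ A := by
  obtain ⟨a', ha'⟩ : ∃ a' : ℕ, a' = a.toNat := ⟨_, rfl⟩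
  have ha'Z : (a' : ℤ) = a := by rw [ha']; exact Int.toNat_of_nonneg ha.le
  have ha'1 : 1 ≤ a' := by omega
  have ha'1r : (1 : ℝ) ≤ a' := by exact_mod_cast ha'1
  obtain ⟨K, B, X1, h1⟩ := maj_win a b ha (A + 2) (by omega) θ hθ
  obtain ⟨D, hD⟩ := gen_ms e (A + 3) K he
  refine ⟨K + 2, D + 1, B, by omega, fun E₁ => ?_⟩
  obtain ⟨X2, h2⟩ := hD E₁
  have he0 : (0 : ℝ) < e := by
    have : 0 < e := by omega
    exact_mod_cast this
  obtain ⟨X3, h3⟩ := ev_L' (3 * a' + 10)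
  obtain ⟨X4, h4⟩ := Filter.eventually_atTop.1 (Pool.Agent.helper24_UT.Sil2.ev_pow K (1 / e) 2 (by positivity))
  refine ⟨X1 + X2 + X3 + X4 + 3, fun X hX z hz1 hz2 m M hm hMθ hmM hM1 hM2 y hy => ?_⟩
  have g1 := h1 X (by omega)
  have g2 := h2 X (by omega) z hz1 hz2
  have hL := h3 X (by omega)
  have a4 := h4 X (by omega)
  have hX1 : (1 : ℝ) ≤ X := by exact_mod_cast (by omega : 1 ≤ X)
  have hX0 : (0 : ℝ) < X := by linarith
  obtain ⟨L, hLd⟩ : ∃ L, L = Real.log (X : ℝ) := ⟨_, rfl⟩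
  rw [← hLd] at hL a4 hM2 hmM g1 g2 ⊢
  have hL1 : 1 ≤ L := by linarith
  have hL0 : 0 < L := by linarith
  have hLK1 : 1 ≤ L ^ K := one_le_pow₀ hL1
  have hM1r : (1 : ℝ) ≤ M := (Real.one_le_rpow hX1 hθ.le).trans hMθ
  have hm1r : (1 : ℝ) ≤ m := by exact_mod_cast (by omega : 1 ≤ m)
  obtain ⟨T, hT⟩ : ∃ T : ℝ, T = M * (m + M) := ⟨_, rfl⟩
  rw [← hT] at hM1 hM2
  have hMT : (M : ℝ) ≤ T := by rw [hT]; nlinarith
  have hT1 : 1 ≤ T := by linarith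
  have hTX : T ≤ X := by
    refine le_trans ?_ hM2
    exact le_mul_of_one_le_right (by linarith) (one_le_pow₀ hL1)
  have hMleX : M ≤ X := by
    have : (M : ℝ) ≤ X := hMT.trans hTX
    exact_mod_cast this
  -- the parameters
  obtain ⟨P, hP⟩ : ∃ P, P = 3 * a' * (M * (m + M)) := ⟨_, rfl⟩
  have hPT : (P : ℝ) = 3 * a' * T := by
    rw [hP, hT]
    push_cast
    ring
  obtain ⟨H, hH⟩ : ∃ H, H = ⌊T / L ^ K⌋₊ := ⟨_, rfl⟩
  have hH1 : (H : ℝ) ≤ T / L ^ K := by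
    rw [hH]
    exact Nat.floor_le (by positivity)
  have hH1' : (H : ℝ) * L ^ K ≤ T := by
    rwa [le_div_iff₀ (by positivity)] at hH1
  have hHM : (H : ℝ) ≤ T := hH1.trans (div_le_self (by linarith) hLK1)
  have hH2 : (X : ℝ) ^ (1 / 4 + 3 / e : ℝ) ≤ H := by
    have e1 := Nat.lt_floor_add_one (T / L ^ K)
    rw [← hH] at e1
    have e2 : 2 * (X : ℝ) ^ (1 / 4 + 3 / e : ℝ) ≤ T / L ^ K := by
      rw [le_div_iff₀ (by positivity)]
      calc 2 * (X : ℝ) ^ (1 / 4 + 3 / e : ℝ) * L ^ K = (2 * L ^ K) * (X : ℝ) ^ (1 / 4 + 3 / e : ℝ) := by ring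
        _ ≤ (X : ℝ) ^ (1 / e : ℝ) * (X : ℝ) ^ (1 / 4 + 3 / e : ℝ) := mul_le_mul_of_nonneg_right a4 (by positivity)
        _ = (X : ℝ) ^ (1 / 4 + 4 / e : ℝ) := by
            rw [← Real.rpow_add hX0]
            congr 1
            ring
        _ ≤ _ := hM1
    have e3 : (1 : ℝ) ≤ (X : ℝ) ^ (1 / 4 + 3 / e : ℝ) := Real.one_le_rpow hX1 (by positivity)
    linarith
  have hHP : H ≤ P := by
    have : (H : ℝ) ≤ P := by
      rw [hPT]
      nlinarith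
    exact_mod_cast this
  have hPX : P ≤ X := by
    have : (P : ℝ) ≤ X := by
      rw [hPT]
      calc 3 * (a' : ℝ) * T ≤ L ^ (D + 1) * T := by
            apply mul_le_mul_of_nonneg_right _ (by linarith)
            calc 3 * (a' : ℝ) ≤ L := by linarith
              _ ≤ L ^ (D + 1) := le_self_pow₀ hL1 (by omega)
        _ = T * L ^ (D + 1) := mul_comm _ _
        _ ≤ X := hM2
    exact_mod_cast this
  have hHX : (H : ℝ) * L ^ D ≤ X := by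
    refine le_trans ?_ hM2
    apply mul_le_mul hHM _ (by positivity) (by linarith)
    exact pow_le_pow_right₀ hL1 (by omega)
  have hvals : ∀ t ∈ Icc 1 y, 1 ≤ gv (GW a b m) t ∧ gv (GW a b m) t ≤ P := by
    intro t ht
    rw [mem_Icc] at ht
    refine ⟨GW_pos a b ha m hm t ht.1, ?_⟩
    refine (GW_le a b ha m hm t).trans ?_
    rw [hP, ← ha'Z]
    push_cast
    apply mul_le_mul_of_nonneg_left _ (by positivity)
    have : (t : ℤ) ≤ M := by exact_mod_cast ht.2.trans hy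
    apply mul_le_mul this (by linarith) (by positivity) (by positivity)
  have hV1 : 1 ≤ ⌊L ^ K⌋₊ := Nat.le_floor (by rw [Nat.cast_one]; exact hLK1)
  have hVK : ((⌊L ^ K⌋₊ : ℕ) : ℝ) ≤ L ^ K := Nat.floor_le (by positivity)
  have hmaj := g1 m M hMθ hMleX hmM y hy P hvals H (by rw [← hT]; exact hH1')
  obtain ⟨r1, r2⟩ := g2 P H ⌊L ^ K⌋₊ hH2 hHX hHP hPX hV1 hVK (psh (gv (GW a b m)) (fun _ => 1) y) M (M / L ^ (A + 2))
    (by positivity) hmaj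
  have hfin : (X : ℝ) * ((M / L ^ (A + 2)) ^ 2 * L ^ 3 + (M : ℝ) ^ 2 / L ^ (A + 3)) ≤ X * (M : ℝ) ^ 2 / L ^ A := by
    have e1 : ((M : ℝ) / L ^ (A + 2)) ^ 2 * L ^ 3 ≤ (M : ℝ) ^ 2 / L ^ (A + 1) := by
      have e2 : ((M : ℝ) / L ^ (A + 2)) ^ 2 * L ^ 3 = (M : ℝ) ^ 2 / L ^ (A + 1) * (1 / L ^ A) := by
        rw [div_pow, ← pow_mul, div_mul_eq_mul_div, div_mul_div_comm, mul_one, ← pow_add,
          div_eq_div_iff (by positivity) (by positivity)]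
        ring
      rw [e2]
      apply mul_le_of_le_one_right (by positivity)
      rw [div_le_one (by positivity)]
      exact one_le_pow₀ hL1
    have e2 : (M : ℝ) ^ 2 / L ^ (A + 3) ≤ (M : ℝ) ^ 2 / L ^ (A + 1) := by
      apply div_le_div_of_nonneg_left (by positivity) (by positivity)
      exact pow_le_pow_right₀ hL1 (by omega)
    have e3 : (M : ℝ) ^ 2 / L ^ (A + 1) + (M : ℝ) ^ 2 / L ^ (A + 1) ≤ (M : ℝ) ^ 2 / L ^ A := by
      have e4 : (M : ℝ) ^ 2 / L ^ (A + 1) = (M : ℝ) ^ 2 / L ^ A * (1 / L) := by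
        rw [pow_succ L A, div_mul_div_comm, mul_one]
      rw [e4]
      have e5 : 1 / L ≤ 1 / 2 := div_le_div_of_nonneg_left (by norm_num) (by norm_num) (by linarith)
      have e6 : 0 ≤ (M : ℝ) ^ 2 / L ^ A := by positivity
      nlinarith
    rw [mul_div_assoc]
    apply mul_le_mul_of_nonneg_left _ hX0.le
    linarith
  constructor
  · refine le_trans (le_of_eq ?_) (r1.trans hfin)
    apply sum_congr rfl
    intro N _
    rw [psh_real (gv (GW a b m)) (fun _ => 1) y P (fun j => Ed z ((N : ℤ) - j)) hvals]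
    simp only [one_mul]
  · refine le_trans (le_of_eq ?_) (r2.trans hfin)
    apply sum_congr rfl
    intro N _
    rw [psh_real (gv (GW a b m)) (fun _ => 1) y P (fun j => Ed z ((N : ℤ) + j)) hvals]
    simp only [one_mul]

end Pool.Agent.H561.HO
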