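import Pool.Agent.H561.HO.W4

set_option autoImplicit false

/-! Short windows of a quadratic polynomial, for almost all `N`. -/

namespace Pool.Agent.H561.HO

open Finset Polynomial
open Pool.Agent.H373R2.T7
open Pool.Agent.W93.GB
open Pool.Agent.H561.PG
open Pool.Agent.H561.GN (BP)
open Pool.Agent.helper24_UT (Ed)

/-- the admissible scales for windows starting at `m` -/
def Rm (X D B : ℕ) (θ δ : ℝ) (m P : ℕ) : Prop :=
  (X : ℝ) ^ θ ≤ P ∧ (m : ℝ) * Real.log X ^ B ≤ (P : ℝ) ^ 2 ∧ (X : ℝ) ^ (1 / 4 + δ) ≤ P * (m + P) ∧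
    (P : ℝ) * (m + P) * Real.log X ^ D ≤ X

open Classical in
/-- **All windows, for almost all `N`.** -/
theorem famW (a b : ℤ) (ha : 0 < a) (W A : ℕ) (hW : 1 ≤ W) (θ δ ε : ℝ) (hθ : 0 < θ) (hθ1 : θ ≤ 1) (hδ : 0 < δ)
    (hε : 0 < ε) (hε1 : ε ≤ 1) :
    ∃ E₀ D B : ℕ, 1 ≤ D ∧ ∀ E₁ : ℕ, ∃ X₀ : ℕ, ∀ X : ℕ, X₀ ≤ X → ∀ z : ℕ, Real.log X ^ E₀ ≤ z → (z : ℝ) ≤ Real.log X ^ E₁ →
    ∀ σ : ℤ, (σ = 1 ∨ σ = -1) → ∀ m : ℕ, b.natAbs + 1 ≤ m →
    (((Icc 1 X).filter (fun N : ℕ => (X : ℝ) / Real.log X ≤ N ∧ (∀ p ∈ pz z, loc false (QP (GF σ (GW a b m) N)) p < 1) ∧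
      ¬ GdR false X W θ ε (Rm X D B θ δ m) (fG σ (GW a b m) N) (St false z (QP (GF σ (GW a b m) N))))).card : ℝ) ≤
      X / Real.log X ^ A := by
  obtain ⟨cG, hcG⟩ : ∃ cG : ℕ, cG = 3 * a.toNat := ⟨_, rfl⟩
  have hcGZ : (cG : ℤ) = 3 * a := by
    rw [hcG]
    push_cast
    rw [Int.toNat_of_nonneg ha.le]
  obtain ⟨e, hed⟩ : ∃ e : ℕ, e = ⌈4 / δ⌉₊ + 5 := ⟨_, rfl⟩
  have he5 : 5 ≤ e := by omega
  have he4 : 4 / (e : ℝ) ≤ δ := by
    have h1 : 4 / δ ≤ e := by
      refine (Nat.le_ceil _).trans ?_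
      rw [hed]
      push_cast
      linarith
    have h2 : (0 : ℝ) < e := by exact_mod_cast (by omega : 0 < e)
    rw [div_le_iff₀ hδ] at h1
    rw [div_le_iff₀ h2]
    linarith
  obtain ⟨V, hV⟩ : ∃ V, V = W + 1 + 6 := ⟨_, rfl⟩
  obtain ⟨E₀, D0, B, hD0, hms⟩ := ms_win a b ha e ((A + 2) + 3 * V + 1 + 9) he5 θ hθ
  obtain ⟨D, hD⟩ : ∃ D, D = D0 + 2 := ⟨_, rfl⟩
  refine ⟨E₀, D, B, by omega, fun E₁ => ?_⟩
  obtain ⟨n1, h1⟩ := hms E₁
  obtain ⟨n2, h2⟩ := fam_ofR false 1 W A θ ε hθ hθ1 hε hε1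
  obtain ⟨n3, h3⟩ := exc_ofT (k := 1) false V (A + 2) 1
  obtain ⟨c, hc⟩ : ∃ c, c = 2 + a.natAbs := ⟨_, rfl⟩
  obtain ⟨n4, h4⟩ := mainQ false c E₁ (V + 1) (by omega) θ hθ
  obtain ⟨n5, h5⟩ := Vz_inv_small E₁
  obtain ⟨n6, h6⟩ := St_ev c E₁ 1 one_pos
  obtain ⟨n7, h7⟩ := ev_L' (2 * cG + 10)
  obtain ⟨n8, h8⟩ := Filter.eventually_atTop.1 (Pool.Agent.helper24_UT.Sil2.ev_pow (V + 1 + 4) θ 1 hθ)
  obtain ⟨n9, h9⟩ := Filter.eventually_atTop.1 (Pool.Agent.helper24_UT.Sil2.ev_pow (W + 1 + 7 + A + 2 + 1) (1 / 2) 12 (by norm_num))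
  refine ⟨n1 + n2 + n3 + n4 + n5 + n6 + n7 + n8 + n9 + 3, fun X hX z hz1 hz2 σ hσ m hm => ?_⟩
  obtain ⟨G, hG⟩ : ∃ G, G = GW a b m := ⟨_, rfl⟩
  rw [← hG]
  have k1 := h1 X (by omega) z hz1 hz2
  have k2 := h2 X (by omega)
  have k3 := h3 X (by omega)
  have k7 := h7 X (by omega)
  have k8 := h8 X (by omega)
  have k9 := h9 X (by omega)
  have hX1 : (1 : ℝ) ≤ X := by exact_mod_cast (by omega : 1 ≤ X)
  have hX0 : (0 : ℝ) < X := by linarith
  have hcG0 : (1 : ℝ) ≤ cG := by exact_mod_cast (by omega : 1 ≤ cG)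
  have hL0 : 0 < Real.log X := by linarith
  have hz1' : 1 ≤ z := by
    have : (0 : ℝ) < z := lt_of_lt_of_le (by positivity) hz1
    exact_mod_cast this
  have k4 := h4 X (by omega) z hz1' hz2
  have k5 := h5 X (by omega) z hz1' hz2
  have k6 := h6 X (by omega) z hz1' hz2
  have hlog2 : Real.log (2 * X : ℕ) ≤ 2 * Real.log X := by
    push_cast
    rw [Real.log_mul (by norm_num) hX0.ne']
    have := Real.log_two_lt_d9
    linarith
  obtain ⟨L, hLd⟩ : ∃ L, L = Real.log (X : ℝ) := ⟨_, rfl⟩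
  rw [← hLd] at hz1 hz2 k1 k3 k4 k5 k6 k7 k8 k9 hL0 hlog2 ⊢
  have hL1 : 1 ≤ L := by linarith
  rw [Real.rpow_one] at k6
  -- the size of the values
  have hsize : ∀ N : ℕ, N ∈ Icc 1 X → X / L ≤ N → ∀ P : ℕ, (P : ℝ) * (m + P) * L ^ D ≤ X → ∀ n : ℕ, 1 ≤ n → n ≤ P →
      X / (2 * L) ≤ (gv (GF σ G N) n : ℝ) ∧ (gv (GF σ G N) n : ℝ) ≤ 2 * X := by
    intro N hN hNL P hnD n hn hnP
    rw [mem_Icc] at hN
    have hNX : (N : ℝ) ≤ X := by exact_mod_cast hN.2
    have hnPr : (n : ℝ) ≤ P := by exact_mod_cast hnP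
    have e1 : |(gv G n : ℝ)| ≤ X / (2 * L) := by
      have e2 : |(gv G n : ℝ)| ≤ cG * ((n : ℝ) * (m + n)) := by
        have f1 := GW_pos a b ha m hm n hn
        have f2 := GW_le a b ha m hm n
        rw [← hG] at f1 f2
        rw [← hcGZ] at f2
        have f3 : (0 : ℝ) ≤ (gv G n : ℝ) := by
          have : (0 : ℤ) ≤ gv G n := by omega
          exact_mod_cast this
        rw [abs_of_nonneg f3]
        exact_mod_cast f2
      refine e2.trans ?_
      rw [le_div_iff₀ (by positivity)]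
      have e3 : (n : ℝ) * (m + n) ≤ P * (m + P) := by
        apply mul_le_mul hnPr (by linarith) (by positivity) (by positivity)
      calc (cG : ℝ) * ((n : ℝ) * (m + n)) * (2 * L) ≤ (cG : ℝ) * ((P : ℝ) * (m + P)) * (2 * L) := by
            apply mul_le_mul_of_nonneg_right _ (by positivity)
            exact mul_le_mul_of_nonneg_left e3 (by positivity)
        _ = ((P : ℝ) * (m + P)) * ((2 * cG) * L) := by ring
        _ ≤ ((P : ℝ) * (m + P)) * (L * L) := by
            apply mul_le_mul_of_nonneg_left _ (by positivity)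
            apply mul_le_mul_of_nonneg_right _ hL0.le
            linarith
        _ = ((P : ℝ) * (m + P)) * L ^ 2 := by ring
        _ ≤ ((P : ℝ) * (m + P)) * L ^ D := by
            apply mul_le_mul_of_nonneg_left _ (by positivity)
            exact pow_le_pow_right₀ hL1 (by omega)
        _ ≤ X := hnD
    have e3 : (gv (GF σ G N) n : ℝ) = N + σ * gv G n := by
      rw [gv_GF]
      push_cast
      ring
    have e4 : X / L = 2 * (X / (2 * L)) := by
      field_simp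
    have e5 : |(σ : ℝ) * gv G n| ≤ X / (2 * L) := by
      rcases hσ with h | h
      · rw [h]
        simpa using e1
      · rw [h]
        simpa using e1
    have e6 : X / (2 * L) ≤ X := by
      apply div_le_self hX0.le
      linarith
    rw [abs_le] at e5
    rw [e3]
    constructor
    · linarith [e5.1]
    · linarith [e5.2]
  have hXL0 : (0 : ℝ) < X / (2 * L) := by positivity
  obtain ⟨Ω, hΩ⟩ : ∃ Ω : Finset ℕ, Ω = (Icc 1 X).filter (fun N : ℕ => (X : ℝ) / L ≤ N ∧ (∀ p ∈ pz z, loc false (QP (GF σ G N)) p < 1)) := ⟨_, rfl⟩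
  have hΩm : ∀ N ∈ Ω, N ∈ Icc 1 X ∧ (X : ℝ) / L ≤ N ∧ (∀ p ∈ pz z, loc false (QP (GF σ G N)) p < 1) := by
    intro N hN
    rw [hΩ, mem_filter] at hN
    exact hN
  have hper : ∀ N, PerB (QP (GF σ G N)) c := fun N => by
    rw [hc]
    have h9 := GF_perB σ hσ G 2 (by norm_num) (by rw [hG]; exact GW_deg a b m) (by rw [hG, GW_coeff]; exact ha) N
    rw [hG, GW_coeff, ← hG] at h9
    exact h9
  have hRP : ∀ P : ℕ, Rm X D B θ δ m P → (1 : ℝ) ≤ P ∧ P ≤ X := by
    rintro P ⟨r1, r2, r3, r4⟩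
    have hP1 : (1 : ℝ) ≤ P := (Real.one_le_rpow hX1 hθ.le).trans r1
    refine ⟨hP1, ?_⟩
    rw [← hLd] at r4
    have h9 : (P : ℝ) ≤ X := by
      have hm1 : (1 : ℝ) ≤ m := by exact_mod_cast (by omega : 1 ≤ m)
      calc (P : ℝ) ≤ P * (m + P) := by nlinarith
        _ ≤ P * (m + P) * L ^ D := le_mul_of_one_le_right (by positivity) (one_le_pow₀ hL1)
        _ ≤ X := r4
    exact_mod_cast h9
  have hfin := k2 ℕ Ω (fG σ G) (fun N => St false z (QP (GF σ G N))) X (Rm X D B θ δ m) hX0.le (fun P hP => (hRP P hP).2)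
  rw [← hLd] at hfin
  have hgoal := hfin ?_ ?_ ?_
  · refine le_trans (le_of_eq ?_) hgoal
    rw [hΩ, filter_filter]
    congr 2
    apply filter_congr
    intro N _
    tauto
  · intro N hN
    obtain ⟨_, _, g3⟩ := hΩm N hN
    exact k6 false _ (hper N) g3
  · intro N hN i P hRmP n hn hnP
    obtain ⟨g1, g2, g3⟩ := hΩm N hN
    obtain ⟨e1, e2⟩ := hsize N g1 g2 P (by have := hRmP.2.2.2; rwa [← hLd] at this) n hn hnP
    unfold fG
    constructor
    · refine le_trans ?_ e1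
      apply div_le_div_of_nonneg_left hX0.le (by positivity)
      nlinarith
    · refine e2.trans ?_
      rw [mul_comm]
      apply mul_le_mul_of_nonneg_left _ hX0.le
      have : L ≤ L ^ W := le_self_pow₀ hL1 (by omega)
      linarith
  · intro j hj1 hj2
    obtain ⟨P, hP⟩ : ∃ P : ℕ, P = 2 ^ j := ⟨_, rfl⟩
    rw [← hP] at hj1 hj2 ⊢
    have hP1 : (1 : ℝ) ≤ P := le_trans (Real.one_le_rpow hX1 hθ.le) hj1
    have hP1n : 1 ≤ P := by exact_mod_cast hP1
    have hPX : P ≤ X := (hRP P hj2).2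
    obtain ⟨r1, r2, r3, r4⟩ := hj2
    rw [← hLd] at r2 r4
    have hPr : (P : ℝ) * (m + P) * L ^ D0 ≤ X := by
      refine le_trans ?_ r4
      apply mul_le_mul_of_nonneg_left _ (by positivity)
      exact pow_le_pow_right₀ hL1 (by omega)
    have hPe : (X : ℝ) ^ (1 / 4 + 4 / e : ℝ) ≤ P * (m + P) := by
      refine le_trans ?_ r3
      apply Real.rpow_le_rpow_of_exponent_le hX1
      linarith
    have hvalP : ∀ N ∈ Ω, ∀ n ∈ Icc 1 P, X / (2 * L) ≤ (gv (GF σ G N) n : ℝ) ∧ (gv (GF σ G N) n : ℝ) ≤ 2 * X := by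
      intro N hN n hn
      rw [mem_Icc] at hn
      obtain ⟨g1, g2, _⟩ := hΩm N hN
      exact hsize N g1 g2 P r4 n hn.1 hn.2
    have hvalP' : ∀ N ∈ Ω, ∀ n ∈ Icc 1 P, 1 ≤ gv (GF σ G N) n ∧ gv (GF σ G N) n ≤ 2 * X := by
      intro N hN n hn
      obtain ⟨g1, g2⟩ := hvalP N hN n hn
      constructor
      · have : (0 : ℝ) < (gv (GF σ G N) n : ℝ) := lt_of_lt_of_le hXL0 g1
        have : (0 : ℤ) < gv (GF σ G N) n := by exact_mod_cast this
        omega
      · exact_mod_cast g2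
    constructor
    · have hVe : W + 1 + 6 = V := by omega
      rw [hVe]
      refine k3 ℕ Ω (fG σ G) (fun N => St false z (QP (GF σ G N)))
        (fun N y => ∑ n ∈ Icc 1 y, wt false n * lamzI z (gv (GF σ G N) n)) X P hX0.le ?_ ?_ ?_ ?_
      · rw [one_mul] at k8
        exact k8.trans hj1
      · intro N _
        obtain ⟨g1, g2⟩ := St_mem false (QP (GF σ G N)) z
        rw [pow_one]
        exact ⟨g1, g2.trans k5⟩
      · intro N hN y hy
        apply k4 P hj1 hPX y hy (QP (GF σ G N)) (hper N)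
        · intro n hn
          rw [mem_Icc] at hn
          exact (hvalP' N hN n (mem_Icc.2 ⟨hn.1, hn.2.trans hy⟩)).1
        · intro n _ p _
          exact Iff.rfl
      · intro y hy
        obtain ⟨m1, m2⟩ := k1 m P hm r1 r2 hPe hPr y hy
        rw [← hG] at m1 m2
        have e1 : ∀ N ∈ Ω, (RT false (fG σ G N) y - ∑ n ∈ Icc 1 y, wt false n * lamzI z (gv (GF σ G N) n)) ^ 2 =
            (∑ n ∈ Icc 1 y, Ed z ((N : ℤ) + σ * gv G n)) ^ 2 := by
          intro N _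
          congr 1
          unfold RT
          rw [← sum_sub_distrib]
          apply sum_congr rfl
          intro n _
          rw [Fin.prod_univ_one]
          unfold fG Ed
          rw [gv_GF]
          have : wt false n = 1 := by simp [wt]
          rw [this]
          ring
        rw [sum_congr rfl e1]
        rcases hσ with h | h
        · have e2 : ∀ N ∈ Icc 1 X, (∑ n ∈ Icc 1 y, Ed z ((N : ℤ) + σ * gv G n)) ^ 2 =
              (∑ n ∈ Icc 1 y, Ed z ((N : ℤ) + gv G n)) ^ 2 := by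
            intro N _
            rw [h]
            simp only [one_mul]
          refine le_trans ?_ m2
          rw [← sum_congr rfl e2]
          apply sum_le_sum_of_subset_of_nonneg
          · rw [hΩ]
            exact filter_subset _ _
          · intro N _ _
            positivity
        · have e2 : ∀ N ∈ Icc 1 (2 * X), (∑ n ∈ Icc 1 y, Ed z ((N : ℤ) + σ * gv G n)) ^ 2 =
              (∑ n ∈ Icc 1 y, Ed z ((N : ℤ) - gv G n)) ^ 2 := by
            intro N _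
            rw [h]
            congr 1
            apply sum_congr rfl
            intro n _
            congr 2
            ring
          refine le_trans ?_ m1
          rw [← sum_congr rfl e2]
          apply sum_le_sum_of_subset_of_nonneg
          · rw [hΩ]
            refine (filter_subset _ _).trans ?_
            exact Icc_subset_Icc_right (by omega)
          · intro N _ _
            positivity
    · have hκ : (0 : ℝ) < P / L ^ (W + 1 + 7) := by positivity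
      have e0 := pp_exc σ hσ G X P hP1n (by omega) Ω hvalP' (P / L ^ (W + 1 + 7)) hκ
      refine e0.trans ?_
      have e1 : (P : ℝ) * (4 * √((2 * X : ℕ) : ℝ) * Real.log (2 * X : ℕ)) / (P / L ^ (W + 1 + 7)) =
          (4 * √((2 * X : ℕ) : ℝ) * Real.log (2 * X : ℕ)) * L ^ (W + 1 + 7) := by
        have : (P : ℝ) ≠ 0 := by linarith
        field_simp
      rw [e1, le_div_iff₀ (by positivity)]
      have e2 : √((2 * X : ℕ) : ℝ) ≤ 3 / 2 * √(X : ℝ) := by
        apply Real.sqrt_le_iff.2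
        refine ⟨by positivity, ?_⟩
        rw [mul_pow, Real.sq_sqrt hX0.le]
        push_cast
        linarith
      have e3 : √(X : ℝ) * √(X : ℝ) = X := Real.mul_self_sqrt hX0.le
      have e4 : 12 * L ^ (W + 1 + 7 + A + 2 + 1) ≤ √(X : ℝ) := by
        rw [Real.sqrt_eq_rpow]
        exact k9
      have hs0 : 0 ≤ √(X : ℝ) := Real.sqrt_nonneg _
      calc 4 * √((2 * X : ℕ) : ℝ) * Real.log (2 * X : ℕ) * L ^ (W + 1 + 7) * L ^ (A + 2)
          ≤ 4 * (3 / 2 * √(X : ℝ)) * (2 * L) * L ^ (W + 1 + 7) * L ^ (A + 2) := by gcongr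
        _ = (12 * L ^ (W + 1 + 7 + A + 2 + 1)) * √(X : ℝ) := by
            rw [show W + 1 + 7 + A + 2 + 1 = (W + 1 + 7) + (A + 2) + 1 by ring, pow_succ L ((W + 1 + 7) + (A + 2)),
              pow_add L (W + 1 + 7) (A + 2)]
            ring
        _ ≤ √(X : ℝ) * √(X : ℝ) := mul_le_mul_of_nonneg_right e4 hs0
        _ = X := e3

end Pool.Agent.H561.HO
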