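import Pool.Agent.H561.HO.W5

set_option autoImplicit false

/-! Short windows: the formula relative to the size of the constant term. -/

namespace Pool.Agent.H561.HO

open Finset
open Pool.Agent.H373R2.T7
open Pool.Agent.H561.PG

/-- **Change of the normalisation.** -/
theorem norm_win (W D B : ℕ) (δ ε : ℝ) (hδ : 0 < δ) (hδ1 : δ ≤ 1) (hε : 0 < ε) (hε1 : ε ≤ 1) :
    ∃ X₀ : ℕ, ∀ X : ℕ, X₀ ≤ X → ∀ ν : ℝ, X ≤ 4 * ν → ν ≤ X → ∀ (m : ℕ) (f : Fin 1 → ℕ → ℤ) (S S' : ℝ), 0 ≤ S →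
    |S' - S| ≤ ε / 8 * S → GdR false X (W + 1) (1 / 12) (ε / 8) (Rm X D B (1 / 12) (δ / 2) m) f S →
    ∀ u v : ℝ, 0 ≤ u → √(m : ℝ) * Real.log ν ^ (D + B + 2) ≤ v → ν ^ (1 / 4 + δ) ≤ v * (m + v) →
    (m + v) ^ 2 * Real.log ν ^ (D + B + 2) ≤ ν → v / Real.log ν ^ W ≤ v - u →
    |((PT false f ⌊u⌋₊ ⌊v⌋₊).card : ℝ) - S' * (v - u) / Real.log ν| ≤ ε * (S' * (v - u) / Real.log ν) := by
  obtain ⟨n1, h1⟩ := ev_L' (16 * 2 ^ (D + 1) + 32 / ε + 100)
  obtain ⟨n3, h3⟩ := Filter.eventually_atTop.1 (Pool.Agent.helper24_UT.Sil2.ev_pow 0 (δ / 4) 8 (by positivity))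
  refine ⟨n1 + n3 + 16, fun X hX ν hν1 hν2 m f S S' hS hSS hg => ?_⟩
  have hL := h1 X (by omega)
  have a3 := h3 X (by omega)
  rw [pow_zero, mul_one] at a3
  have hX16 : (16 : ℝ) ≤ X := by exact_mod_cast (by omega : 16 ≤ X)
  have hX0 : (0 : ℝ) < X := by linarith
  have hν0 : 0 < ν := by linarith
  have hν1' : 1 ≤ ν := by linarith
  have p1 : (0 : ℝ) < 2 ^ (D + 1) := by positivity
  have p2 : (0 : ℝ) < 32 / ε := by positivity
  have hlL : Real.log ν ≤ Real.log X := Real.log_le_log hν0 hν2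
  have hlL2 : Real.log X ≤ Real.log ν + 2 := by
    have e1 : Real.log X ≤ Real.log (4 * ν) := Real.log_le_log hX0 hν1
    rw [Real.log_mul (by norm_num) hν0.ne'] at e1
    have h4 : Real.log 4 ≤ 2 := by
      have : Real.log 4 = 2 * Real.log 2 := by
        rw [show (4 : ℝ) = 2 ^ 2 by norm_num, Real.log_pow]
        norm_num
      have := Real.log_two_lt_d9
      linarith
    linarith
  have hsq : √(X : ℝ) ≤ ν := by
    have e5 : √(X : ℝ) * √(X : ℝ) = X := Real.mul_self_sqrt hX0.le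
    have e6 : 4 ≤ √(X : ℝ) := by
      apply Real.le_sqrt_of_sq_le
      linarith
    nlinarith
  have hνδ : (8 : ℝ) ≤ ν ^ (δ / 2) := by
    calc (8 : ℝ) ≤ (X : ℝ) ^ (δ / 4) := a3
      _ = (√(X : ℝ)) ^ (δ / 2) := by
          rw [Real.sqrt_eq_rpow, ← Real.rpow_mul hX0.le]
          congr 1
          ring
      _ ≤ ν ^ (δ / 2) := Real.rpow_le_rpow (Real.sqrt_nonneg _) hsq (by positivity)
  have hX14 : (X : ℝ) ^ (1 / 4 + δ / 2) ≤ 4 * ν ^ (1 / 4 + δ / 2) := by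
    calc (X : ℝ) ^ (1 / 4 + δ / 2) ≤ (4 * ν) ^ (1 / 4 + δ / 2) := Real.rpow_le_rpow hX0.le hν1 (by positivity)
      _ = 4 ^ (1 / 4 + δ / 2) * ν ^ (1 / 4 + δ / 2) := Real.mul_rpow (by norm_num) hν0.le
      _ ≤ 4 * ν ^ (1 / 4 + δ / 2) := by
          apply mul_le_mul_of_nonneg_right _ (by positivity)
          calc (4 : ℝ) ^ (1 / 4 + δ / 2) ≤ (4 : ℝ) ^ (1 : ℝ) :=
                Real.rpow_le_rpow_of_exponent_le (by norm_num) (by linarith)
            _ = 4 := Real.rpow_one 4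
  have hmain1 : 2 * (X : ℝ) ^ (1 / 4 + δ / 2) ≤ ν ^ (1 / 4 + δ) := by
    have e1 : ν ^ (1 / 4 + δ) = ν ^ (δ / 2) * ν ^ (1 / 4 + δ / 2) := by
      rw [← Real.rpow_add hν0]
      congr 1
      ring
    rw [e1]
    have e2 : 8 * ν ^ (1 / 4 + δ / 2) ≤ ν ^ (δ / 2) * ν ^ (1 / 4 + δ / 2) :=
      mul_le_mul_of_nonneg_right hνδ (by positivity)
    linarith
  intro u v hu hv hvs hvD hvu
  unfold GdR at hg
  obtain ⟨L, hLd⟩ : ∃ L, L = Real.log (X : ℝ) := ⟨_, rfl⟩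
  obtain ⟨l, hl⟩ : ∃ l, l = Real.log ν := ⟨_, rfl⟩
  rw [← hl] at hlL hlL2 hv hvD hvu ⊢
  rw [← hLd] at hL hlL hlL2 hg
  have hl1 : 1 ≤ l := by linarith
  have hl0 : 0 < l := by linarith
  have hL0 : 0 < L := by linarith
  have hL1 : 1 ≤ L := by linarith
  have hLl : L ≤ 2 * l := by linarith
  have hm0 : (0 : ℝ) ≤ m := Nat.cast_nonneg m
  have hv0' : 0 ≤ v := le_trans (by positivity) hv
  -- m is at most v ^ 2
  have hmv2 : (m : ℝ) * l ^ (2 * (D + B + 2)) ≤ v ^ 2 := by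
    have e1 := pow_le_pow_left₀ (by positivity) hv 2
    rw [mul_pow, Real.sq_sqrt hm0, ← pow_mul] at e1
    rwa [mul_comm 2]
  have hmv : (m : ℝ) ≤ v ^ 2 := by
    refine le_trans ?_ hmv2
    exact le_mul_of_one_le_right hm0 (one_le_pow₀ hl1)
  have hX1 : (1 : ℝ) ≤ X := by linarith
  have hbig : (2 : ℝ) ≤ ν ^ (1 / 4 + δ) := by
    have : (1 : ℝ) ≤ (X : ℝ) ^ (1 / 4 + δ / 2) := Real.one_le_rpow hX1 (by positivity)
    linarith
  have hv1 : 1 ≤ v := by
    by_contra hc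
    push Not at hc
    have e1 : (m : ℝ) < 1 := by nlinarith
    have e2 : m = 0 := by
      have : m < 1 := by exact_mod_cast e1
      omega
    rw [e2, Nat.cast_zero, zero_add] at hvs
    nlinarith
  have hv0 : 0 < v := by linarith
  have hXv : (X : ℝ) ^ (1 / 12 : ℝ) ≤ v := by
    have e1 : (X : ℝ) ^ (1 / 4 : ℝ) ≤ v ^ 3 := by
      have e2 : v * (m + v) ≤ 2 * v ^ 3 := by
        have : (m : ℝ) + v ≤ 2 * v ^ 2 := by nlinarith
        calc v * (m + v) ≤ v * (2 * v ^ 2) := mul_le_mul_of_nonneg_left this hv0.le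
          _ = _ := by ring
      have e3 : (X : ℝ) ^ (1 / 4 : ℝ) ≤ (X : ℝ) ^ (1 / 4 + δ / 2) :=
        Real.rpow_le_rpow_of_exponent_le hX1 (by linarith)
      linarith
    calc (X : ℝ) ^ (1 / 12 : ℝ) = ((X : ℝ) ^ (1 / 4 : ℝ)) ^ (1 / 3 : ℝ) := by
          rw [← Real.rpow_mul hX0.le]
          norm_num
      _ ≤ (v ^ 3) ^ (1 / 3 : ℝ) := Real.rpow_le_rpow (by positivity) e1 (by norm_num)
      _ = v := by
          rw [← Real.rpow_natCast, ← Real.rpow_mul hv0.le]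
          norm_num
  have hR : ∀ P : ℕ, v ≤ P → (P : ℝ) ≤ 4 * v → Rm X D B (1 / 12) (δ / 2) m P := by
    intro P hP1 hP2
    unfold Rm
    rw [← hLd]
    refine ⟨hXv.trans hP1, ?_, ?_, ?_⟩
    · have e1 : L ^ B ≤ l ^ (2 * (D + B + 2)) := by
        calc L ^ B ≤ (2 * l) ^ B := pow_le_pow_left₀ hL0.le hLl B
          _ ≤ (l * l) ^ B := pow_le_pow_left₀ (by positivity) (by nlinarith) B
          _ = l ^ (2 * B) := by rw [← pow_two, ← pow_mul]
          _ ≤ _ := pow_le_pow_right₀ hl1 (by omega)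
      calc (m : ℝ) * L ^ B ≤ m * l ^ (2 * (D + B + 2)) := mul_le_mul_of_nonneg_left e1 hm0
        _ ≤ v ^ 2 := hmv2
        _ ≤ (P : ℝ) ^ 2 := pow_le_pow_left₀ hv0.le hP1 2
    · have e1 : (X : ℝ) ^ (1 / 4 + δ / 2) ≤ v * (m + v) := by
        have : 0 < (X : ℝ) ^ (1 / 4 + δ / 2) := by positivity
        linarith
      refine e1.trans ?_
      apply mul_le_mul hP1 (by linarith) (by positivity) (by positivity)
    · have e1 : (P : ℝ) * (m + P) ≤ 16 * (m + v) ^ 2 := by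
        calc (P : ℝ) * (m + P) ≤ (4 * v) * (m + 4 * v) := by
              apply mul_le_mul hP2 (by linarith) (by positivity) (by positivity)
          _ ≤ 16 * (m + v) ^ 2 := by nlinarith
      have e2 : 16 * L ^ D ≤ l ^ (D + B + 2) := by
        calc 16 * L ^ D ≤ 16 * (2 * l) ^ D := by
              apply mul_le_mul_of_nonneg_left _ (by norm_num)
              exact pow_le_pow_left₀ hL0.le hLl D
          _ = (16 * 2 ^ D) * l ^ D := by rw [mul_pow]; ring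
          _ ≤ l * l ^ D := by
              apply mul_le_mul_of_nonneg_right _ (by positivity)
              have : (2 : ℝ) ^ (D + 1) = 2 * 2 ^ D := by rw [pow_succ]; ring
              have : (0 : ℝ) < 2 ^ D := by positivity
              linarith
          _ = l ^ (D + 1) := by ring
          _ ≤ _ := pow_le_pow_right₀ hl1 (by omega)
      calc (P : ℝ) * (m + P) * L ^ D ≤ 16 * (m + v) ^ 2 * L ^ D := mul_le_mul_of_nonneg_right e1 (by positivity)
        _ = (m + v) ^ 2 * (16 * L ^ D) := by ring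
        _ ≤ (m + v) ^ 2 * l ^ (D + B + 2) := mul_le_mul_of_nonneg_left e2 (by positivity)
        _ ≤ ν := hvD
        _ ≤ X := hν2
  have hvu' : v / L ^ (W + 1) ≤ v - u := by
    refine le_trans ?_ hvu
    apply div_le_div_of_nonneg_left hv0.le (by positivity)
    calc l ^ W ≤ L ^ W := pow_le_pow_left₀ hl0.le hlL W
      _ ≤ L ^ (W + 1) := pow_le_pow_right₀ hL1 (by omega)
  have hgg := hg u v hu hXv hR hvu'
  have hlb : lb false v = 1 := by simp [lb]
  rw [pow_one, hlb, one_mul] at hgg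
  have hvu0 : 0 ≤ v - u := (div_nonneg hv0.le (pow_nonneg hl0.le W)).trans hvu
  apply close_lem _ _ S S' l L ε hvu0 hS hl0 hlL _ hε hε1 hSS hgg
  have e2 : 32 / ε ≤ l := by linarith
  rw [div_le_iff₀ hε] at e2
  linarith

end Pool.Agent.H561.HO
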