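import Pool.Agent.H561.HO.W6
import Pool.Agent.H561.PG.Q3

set_option autoImplicit false

/-! Short windows of quadratic polynomials with almost every constant term: one dyadic range, one sign. -/

namespace Pool.Agent.H561.HO

open Finset Polynomial
open Pool.Agent.H373R2.T7
open Pool.Agent.H561.PG
open Pool.Agent.R460.SB (QS QS_per QS_perB)
open Pool.Agent.R460.SC (tail_both)

/-- the formula for one polynomial, for all windows starting at `m` -/
def HoldM (a b : ℤ) (δ ε : ℝ) (W D m : ℕ) (c : ℤ) : Prop :=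
  ∃ S : ℝ, 0 < S ∧ Filter.Tendsto (fun z => St false z (QS (-a) (-b) c)) Filter.atTop (nhds S) ∧
    ∀ u v : ℝ, 0 ≤ u → √(m : ℝ) * Real.log c.natAbs ^ D ≤ v → (c.natAbs : ℝ) ^ (1 / 4 + δ) ≤ v * (m + v) →
      (m + v) ^ 2 * Real.log c.natAbs ^ D ≤ c.natAbs → v / Real.log c.natAbs ^ W ≤ v - u →
      |(cntq false a b c (m + u) (m + v) : ℝ) - S * (v - u) / Real.log c.natAbs| ≤ ε * (S * (v - u) / Real.log c.natAbs)

lemma QP_GW (a b : ℤ) (σ : ℤ) (hσ : σ = 1 ∨ σ = -1) (m : ℕ) (c : ℤ) (N : ℕ) (hN : (N : ℤ) = σ * (c + a * (m : ℤ) ^ 2 + b * m)) (p t : ℕ) :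
    QP (GF σ (GW a b m) N) p t ↔ QS (-a) (-b) c p (m + t) := by
  unfold QP QS
  rw [gv_GF, gv_GW, hN]
  have e : σ * (c + a * (m : ℤ) ^ 2 + b * m) + σ * (a * (t : ℤ) ^ 2 + (2 * a * m + b) * t) =
      σ * (c - (-a * ((m + t : ℕ) : ℤ) ^ 2 + -b * ((m + t : ℕ) : ℤ))) := by
    push_cast
    ring
  rw [e]
  rcases hσ with h | h
  · rw [h, one_mul]
  · rw [h, neg_one_mul, dvd_neg]

open Classical in
lemma nuB_GW (a b : ℤ) (σ : ℤ) (hσ : σ = 1 ∨ σ = -1) (m : ℕ) (c : ℤ) (N : ℕ) (hN : (N : ℤ) = σ * (c + a * (m : ℤ) ^ 2 + b * m)) (p : ℕ) :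
    nuB (QP (GF σ (GW a b m) N)) p = nuB (QS (-a) (-b) c) p := by
  have h1 : nuB (QP (GF σ (GW a b m) N)) p = ((Ico m (m + p)).filter (fun r => QS (-a) (-b) c p r)).card := by
    unfold nuB
    apply card_bij (fun r _ => m + r)
    · intro r hr
      rw [mem_filter, mem_range] at hr
      rw [mem_filter, mem_Ico]
      exact ⟨by omega, (QP_GW a b σ hσ m c N hN p r).1 hr.2⟩
    · intro r _ r' _ h
      omega
    · intro r hr
      rw [mem_filter, mem_Ico] at hr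
      refine ⟨r - m, ?_, by omega⟩
      rw [mem_filter, mem_range]
      refine ⟨by omega, (QP_GW a b σ hσ m c N hN p (r - m)).2 ?_⟩
      rw [show m + (r - m) = r by omega]
      exact hr.2
  have hper : Function.Periodic (fun r => QS (-a) (-b) c p r) p := by
    intro r
    show QS (-a) (-b) c p (r + p) = QS (-a) (-b) c p r
    rw [eq_iff_iff, QS_per (-a) (-b) c p (r + p), QS_per (-a) (-b) c p r, Nat.add_mod_right]
  rw [h1, Nat.filter_Ico_card_eq_of_periodic m p _ hper]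
  unfold nuB
  rw [Nat.count_eq_card_filter_range]

lemma loc_GW (a b : ℤ) (σ : ℤ) (hσ : σ = 1 ∨ σ = -1) (m : ℕ) (c : ℤ) (N : ℕ) (hN : (N : ℤ) = σ * (c + a * (m : ℤ) ^ 2 + b * m)) (p : ℕ) :
    loc false (QP (GF σ (GW a b m) N)) p = loc false (QS (-a) (-b) c) p := by
  unfold loc
  simp only [Bool.false_eq_true, if_false]
  rw [nuB_GW a b σ hσ m c N hN p]

lemma St_GW (a b : ℤ) (σ : ℤ) (hσ : σ = 1 ∨ σ = -1) (m : ℕ) (c : ℤ) (N : ℕ) (hN : (N : ℤ) = σ * (c + a * (m : ℤ) ^ 2 + b * m)) (z : ℕ) :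
    St false z (QP (GF σ (GW a b m) N)) = St false z (QS (-a) (-b) c) := by
  unfold St
  congr 1
  apply prod_congr rfl
  intro p _
  rw [loc_GW a b σ hσ m c N hN p]

/-- the windows of the two counts -/
lemma cnt_GW (a b : ℤ) (σ : ℤ) (hσ : σ = 1 ∨ σ = -1) (m : ℕ) (c : ℤ) (N : ℕ) (hN : (N : ℤ) = σ * (c + a * (m : ℤ) ^ 2 + b * m))
    (u v : ℝ) (hu : 0 ≤ u) (hv : 0 ≤ v) (hpos : ∀ t : ℕ, 1 ≤ t → (t : ℝ) ≤ v → 0 < gv (GF σ (GW a b m) N) t) :
    cntq false a b c (m + u) (m + v) = (PT false (fG σ (GW a b m) N) ⌊u⌋₊ ⌊v⌋₊).card := by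
  unfold cntq PT
  symm
  have e1 : ⌊(m : ℝ) + u⌋₊ = m + ⌊u⌋₊ := by rw [add_comm, Nat.floor_add_natCast hu, add_comm]
  have e2 : ⌊(m : ℝ) + v⌋₊ = m + ⌊v⌋₊ := by rw [add_comm, Nat.floor_add_natCast hv, add_comm]
  rw [e1, e2]
  have key : ∀ t : ℕ, ⌊u⌋₊ < t → t ≤ ⌊v⌋₊ → (gv (GF σ (GW a b m) N) t).toNat = (a * ((m + t : ℕ) : ℤ) ^ 2 + b * ((m + t : ℕ) : ℤ) + c).natAbs := by
    intro t ht1 ht2
    have htv : (t : ℝ) ≤ v := (Nat.le_floor_iff hv).1 ht2
    have h1 := hpos t (by omega) htv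
    have h2 : (gv (GF σ (GW a b m) N) t).toNat = (gv (GF σ (GW a b m) N) t).natAbs := by omega
    rw [h2]
    have h3 : gv (GF σ (GW a b m) N) t = σ * (a * ((m + t : ℕ) : ℤ) ^ 2 + b * ((m + t : ℕ) : ℤ) + c) := by
      rw [gv_GF, gv_GW, hN]
      push_cast
      ring
    rw [h3, Int.natAbs_mul]
    rcases hσ with h | h <;> rw [h] <;> simp
  apply card_bij (fun t _ => m + t)
  · intro t ht
    rw [mem_filter, mem_Ioc] at ht
    rw [mem_filter, mem_Ioc]
    refine ⟨⟨by omega, by omega⟩, fun h => absurd h (by simp), ?_⟩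
    rw [← key t ht.1.1 ht.1.2]
    exact ht.2.2 0
  · intro t _ t' _ h
    omega
  · intro t ht
    rw [mem_filter, mem_Ioc] at ht
    refine ⟨t - m, ?_, by omega⟩
    rw [mem_filter, mem_Ioc]
    refine ⟨⟨by omega, by omega⟩, fun h => absurd h (by simp), fun i => ?_⟩
    unfold fG
    rw [key (t - m) (by omega) (by omega), show m + (t - m) = t by omega]
    exact ht.2.2

open Classical in
/-- one dyadic range, one sign -/
theorem mainW (a b : ℤ) (ha : 0 < a) (W A : ℕ) (δ ε : ℝ) (hδ : 0 < δ) (hδ1 : δ ≤ 1) (hε : 0 < ε) (hε1 : ε ≤ 1) :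
    ∃ D X₀ : ℕ, ∀ X : ℕ, X₀ ≤ X → ∀ σ : ℤ, (σ = 1 ∨ σ = -1) → ∀ m : ℕ, b.natAbs + 1 ≤ m →
    (((Icc 1 X).filter (fun ν : ℕ => (LS false a b (σ * ν) ∧ ¬ HoldM a b δ ε W D m (σ * ν)) ∧ X ≤ 2 * ν)).card : ℝ) ≤
      X / Real.log X ^ A := by
  obtain ⟨a', ha'⟩ : ∃ a' : ℕ, a' = a.toNat := ⟨_, rfl⟩
  have ha'Z : (a' : ℤ) = a := by rw [ha']; exact Int.toNat_of_nonneg ha.le
  have ha'r : (a : ℝ) = a' := by exact_mod_cast ha'Z.symm
  have ha'N : a.natAbs = a' := by omega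
  obtain ⟨E₀, D, B, hD1, hfam⟩ := famW a b ha (W + 1) (A + 2) (by omega) (1 / 12) (δ / 2) (ε / 8)
    (by norm_num) (by norm_num) (by positivity) (by positivity) (by linarith)
  obtain ⟨U, hU⟩ : ∃ U, U = A + 3 := ⟨_, rfl⟩
  obtain ⟨E', hE'⟩ : ∃ E', E' = E₀ + 3 * (U + 1) + 4 := ⟨_, rfl⟩
  obtain ⟨n1, h1⟩ := hfam (E' + 1)
  obtain ⟨n2, h2⟩ := tail_both a ha.ne' b (1 / 4) (by norm_num) U (E' + 1)
  obtain ⟨n3, h3⟩ := norm_win W D B δ ε hδ hδ1 hε hε1
  obtain ⟨n4, h4⟩ := ev_L' (1000 / ε + 100 + 100 * a' + 16)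
  obtain ⟨n5, h5⟩ := ev_log' (A + 2) 1
  obtain ⟨n6, h6⟩ := St_ev (2 + a.natAbs) (E' + 1) 1 one_pos
  refine ⟨D + B + 2, n1 + n2 + n3 + n4 + n5 + n6 + 100, fun X hX σ hσ m hmb => ?_⟩
  obtain ⟨X', hX'⟩ : ∃ X', X' = 2 * X := ⟨_, rfl⟩
  have k1 := h1 X' (by omega)
  have k2 := h2 X' (by omega)
  have k3 := h3 X' (by omega)
  have k4 := h4 X' (by omega)
  have k5 := h5 X' (by omega)
  have k6 := h6 X' (by omega)
  have hX1 : (1 : ℝ) ≤ X := by exact_mod_cast (by omega : 1 ≤ X)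
  have hX0 : (0 : ℝ) < X := by linarith
  have hX'r : (X' : ℝ) = 2 * X := by rw [hX']; push_cast; ring
  have hX'0 : (0 : ℝ) < X' := by linarith
  have hlogXX' : Real.log X ≤ Real.log X' := Real.log_le_log hX0 (by linarith)
  have hlogX0 : 0 ≤ Real.log X := Real.log_nonneg hX1
  obtain ⟨L, hL⟩ : ∃ L, L = Real.log (X' : ℝ) := ⟨_, rfl⟩
  rw [← hL] at k1 k2 k4 k5 k6 hlogXX'
  have ha0 : (0 : ℝ) ≤ a' := Nat.cast_nonneg _
  have p1 : 0 < 1000 / ε := by positivity
  have hL100 : 100 ≤ L := by linarith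
  have hL1 : 1 ≤ L := by linarith
  have hL0 : 0 < L := by linarith
  -- the sieve level
  obtain ⟨z, hz⟩ : ∃ z, z = ⌈L ^ E'⌉₊ := ⟨_, rfl⟩
  have hzlo : L ^ E' ≤ z := by rw [hz]; exact Nat.le_ceil _
  have hLE : 1 ≤ L ^ E' := one_le_pow₀ hL1
  have hzhi : (z : ℝ) ≤ L ^ (E' + 1) := by
    have := Nat.ceil_lt_add_one (show 0 ≤ L ^ E' by positivity)
    rw [← hz] at this
    calc (z : ℝ) ≤ L ^ E' + 1 := this.le
      _ ≤ L ^ E' + L ^ E' := by linarith
      _ = 2 * L ^ E' := by ring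
      _ ≤ L * L ^ E' := mul_le_mul_of_nonneg_right (by linarith) (by positivity)
      _ = L ^ (E' + 1) := by ring
  have hzL2 : L ^ 2 ≤ z := (pow_le_pow_right₀ hL1 (by omega)).trans hzlo
  have hzL : L ≤ z := (le_self_pow₀ hL1 (by norm_num)).trans hzL2
  have hz16 : 16 ≤ z := by
    have : (16 : ℝ) ≤ z := by linarith
    exact_mod_cast this
  have haz : a.natAbs ≤ z := by
    have : ((a.natAbs : ℕ) : ℝ) ≤ z := by rw [ha'N]; linarith
    exact_mod_cast this
  have hz0 : (0 : ℝ) < z := by linarith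
  have q1 := k1 z ((pow_le_pow_right₀ hL1 (by omega)).trans hzlo) hzhi σ hσ m hmb
  obtain ⟨Ex, hEx1, hEx2⟩ := k2 z ((pow_le_pow_right₀ hL1 (by omega)).trans hzlo) hzhi 1 le_rfl (by
    push_cast
    apply Real.one_le_rpow (by linarith)
    norm_num) 0
  have q6 := k6 z (by omega) hzhi false
  rw [Real.rpow_one] at q6
  obtain ⟨B1, hB1⟩ : ∃ B1 : Finset ℕ, B1 = (Icc 1 X').filter (fun N : ℕ => (X' : ℝ) / L ≤ N ∧
      (∀ p ∈ pz z, loc false (QP (GF σ (GW a b m) N)) p < 1) ∧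
      ¬ GdR false X' (W + 1) (1 / 12) (ε / 8) (Rm X' D B (1 / 12) (δ / 2) m) (fG σ (GW a b m) N)
        (St false z (QP (GF σ (GW a b m) N)))) := ⟨_, rfl⟩
  rw [← hB1] at q1
  obtain ⟨κ, hκ⟩ : ∃ κ : ℤ, κ = a * (m : ℤ) ^ 2 + b * m := ⟨_, rfl⟩
  have hκr : |(κ : ℝ)| ≤ 2 * a' * (m : ℝ) ^ 2 := by
    have hbm : |(b : ℝ)| ≤ m := by
      have : ((b.natAbs : ℕ) : ℝ) ≤ m := by exact_mod_cast (by omega : b.natAbs ≤ m)
      rwa [Nat.cast_natAbs, Int.cast_abs] at this
    have ha'1 : (1 : ℝ) ≤ a' := by exact_mod_cast (by omega : 1 ≤ a')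
    rw [hκ]
    push_cast
    refine (abs_add_le _ _).trans ?_
    rw [abs_mul, abs_mul, ha'r, abs_of_nonneg ha0, abs_of_nonneg (show (0 : ℝ) ≤ (m : ℝ) ^ 2 by positivity),
      abs_of_nonneg (Nat.cast_nonneg m : (0 : ℝ) ≤ m)]
    have e1 : |(b : ℝ)| * m ≤ m * m := mul_le_mul_of_nonneg_right hbm (Nat.cast_nonneg m)
    have e2 : (m : ℝ) * m ≤ a' * (m : ℝ) ^ 2 := by nlinarith [sq_nonneg (m : ℝ)]
    linarith
  -- the exceptional set
  have hsub : (Icc 1 X).filter (fun ν : ℕ => (LS false a b (σ * ν) ∧ ¬ HoldM a b δ ε W (D + B + 2) m (σ * ν)) ∧ X ≤ 2 * ν) ⊆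
      ((Icc 1 X).filter (fun ν : ℕ => ((ν : ℤ) + σ * κ).toNat ∈ B1 ∧ 0 < (ν : ℤ) + σ * κ)) ∪ ((Icc 1 X).filter (fun ν : ℕ => σ * (ν : ℤ) ∈ Ex)) := by
    intro ν hm
    rw [mem_filter, mem_Icc] at hm
    obtain ⟨⟨hm1, hmX⟩, ⟨hLS, hnH⟩, hXm⟩ := hm
    rw [mem_union, mem_filter, mem_filter, mem_Icc]
    by_cases hE : σ * (ν : ℤ) ∈ Ex
    · exact Or.inr ⟨⟨hm1, hmX⟩, hE⟩
    left
    obtain ⟨c, hc⟩ : ∃ c : ℤ, c = σ * ν := ⟨_, rfl⟩
    rw [← hc] at hLS hE hnH
    have hσ2 : σ * σ = 1 := by rcases hσ with h | h <;> rw [h] <;> norm_num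
    have hcabs : c.natAbs = ν := by
      rw [hc, Int.natAbs_mul]
      rcases hσ with h | h <;> rw [h] <;> simp
    have hc0 : c ≠ 0 := by
      intro h
      rw [h] at hcabs
      simp at hcabs
      omega
    have hmr : (ν : ℝ) ≤ X := by exact_mod_cast hmX
    have hXmr : (X : ℝ) ≤ 2 * ν := by exact_mod_cast hXm
    have hν0 : (0 : ℝ) < ν := by linarith
    have hlogc : Real.log c.natAbs ≤ L := by
      rw [hcabs, hL]
      exact Real.log_le_log hν0 (by linarith)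
    obtain ⟨hsq, htail⟩ := hEx2 c (by omega) (by omega) (by
      push_cast
      exact Int.modEq_one) hE
    -- the truncated product
    have hPB : PerB (QS (-a) (-b) c) (2 + a.natAbs) := by
      have h11 := QS_perB (α := -a) (γ := -b) (by omega : -a ≠ 0) c
      rw [Int.natAbs_neg, add_comm] at h11
      exact h11
    have hS1 : 1 / L ≤ St false z (QS (-a) (-b) c) := q6 _ hPB (fun p hp => hLS p (mem_pz.1 hp).2)
    have hS0 : 0 < St false z (QS (-a) (-b) c) := lt_of_lt_of_le (by positivity) hS1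
    have hδ0 : (0 : ℝ) ≤ 1 / L ^ U := by positivity
    have hLU : 1 / L ^ U ≤ 1 / L := by
      apply one_div_le_one_div_of_le hL0
      exact le_self_pow₀ hL1 (by omega)
    have h5z : 5 / (z : ℝ) ≤ 5 / L := div_le_div_of_nonneg_left (by norm_num) hL0 hzL
    have hLi : 1 / L ≤ 1 / 100 := one_div_le_one_div_of_le (by norm_num) hL100
    have h5L : 5 / L = 5 * (1 / L) := by ring
    have hεL : 1 / L ≤ ε / 1000 := by
      rw [div_le_div_iff₀ hL0 (by norm_num)]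
      have : 1000 / ε ≤ L := by linarith
      rw [div_le_iff₀ hε] at this
      linarith
    obtain ⟨S, hSp, hSt, hSd⟩ : ∃ S : ℝ, 0 < S ∧ Filter.Tendsto (fun z => St false z (QS (-a) (-b) c)) Filter.atTop (nhds S) ∧
        |S - St false z (QS (-a) (-b) c)| ≤ ε / 8 * St false z (QS (-a) (-b) c) := by
      obtain ⟨S, g1, g2, g3⟩ := tc_false (b := b) ha.ne' (by omega) haz hsq hδ0 (by linarith) htail hS0
      refine ⟨S, g1, g2, g3.trans ?_⟩
      apply mul_le_mul_of_nonneg_right _ hS0.le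
      linarith
    have hlL2 : L ≤ Real.log ν + 2 := by
      have e1 : Real.log X' ≤ Real.log (4 * ν) := Real.log_le_log hX'0 (by linarith)
      rw [Real.log_mul (by norm_num) hν0.ne'] at e1
      have h4 : Real.log 4 ≤ 2 := by
        have : Real.log 4 = 2 * Real.log 2 := by
          rw [show (4 : ℝ) = 2 ^ 2 by norm_num, Real.log_pow]
          norm_num
        have := Real.log_two_lt_d9
        linarith
      rw [hL]
      linarith
    have hl1 : 1 ≤ Real.log ν := by linarith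
    have hla : 80 * (a' : ℝ) ≤ Real.log ν := by linarith
    -- the shift is small
    have hmsmall : (m : ℝ) ^ 2 * Real.log ν ^ (D + B + 2) ≤ ν := by
      by_contra hcon
      apply hnH
      refine ⟨S, hSp, hSt, fun u v hu hv hvs hvD hvu => ?_⟩
      exfalso
      apply hcon
      rw [hcabs] at hvD hv
      refine le_trans ?_ hvD
      apply mul_le_mul_of_nonneg_right _ (by positivity)
      apply pow_le_pow_left₀ (Nat.cast_nonneg m)
      have : 0 ≤ v := le_trans (by positivity) hv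
      linarith
    have hκν : |(κ : ℝ)| ≤ ν / 8 := by
      refine hκr.trans ?_
      rw [le_div_iff₀ (by norm_num)]
      calc 2 * (a' : ℝ) * (m : ℝ) ^ 2 * 8 = (m : ℝ) ^ 2 * (16 * a') := by ring
        _ ≤ (m : ℝ) ^ 2 * Real.log ν ^ (D + B + 2) := by
            apply mul_le_mul_of_nonneg_left _ (by positivity)
            calc 16 * (a' : ℝ) ≤ Real.log ν := by linarith
              _ ≤ Real.log ν ^ (D + B + 2) := le_self_pow₀ hl1 (by omega)
        _ ≤ ν := hmsmall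
    have hσκ : |(σ : ℝ) * κ| ≤ ν / 8 := by
      rcases hσ with h | h
      · rw [h]
        simpa using hκν
      · rw [h]
        simpa using hκν
    rw [abs_le] at hσκ
    have hpos : 0 < (ν : ℤ) + σ * κ := by
      have : (0 : ℝ) < ν + σ * κ := by linarith [hσκ.1]
      exact_mod_cast this
    refine ⟨⟨hm1, hmX⟩, ?_, hpos⟩
    by_contra hBn
    apply hnH
    obtain ⟨N, hNd⟩ : ∃ N, N = ((ν : ℤ) + σ * κ).toNat := ⟨_, rfl⟩
    rw [← hNd] at hBn
    have hNZ : (N : ℤ) = (ν : ℤ) + σ * κ := by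
      rw [hNd]
      exact Int.toNat_of_nonneg hpos.le
    have hNc : (N : ℤ) = σ * (c + a * (m : ℤ) ^ 2 + b * m) := by
      rw [hNZ, hc, hκ]
      calc (ν : ℤ) + σ * (a * (m : ℤ) ^ 2 + b * m) = (σ * σ) * ν + σ * (a * (m : ℤ) ^ 2 + b * m) := by rw [hσ2, one_mul]
        _ = _ := by ring
    have hNr0 : (N : ℝ) = ν + σ * κ := by exact_mod_cast hNZ
    have hNr : (N : ℝ) ≤ 2 * ν ∧ (ν : ℝ) ≤ 2 * N := by
      constructor
      · linarith [hσκ.2]
      · linarith [hσκ.1]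
    have hN1 : 1 ≤ N := by
      have : (0 : ℤ) < N := by rw [hNZ]; exact hpos
      omega
    have hNX' : N ≤ X' := by
      have : (N : ℝ) ≤ X' := by linarith [hNr.1]
      exact_mod_cast this
    have hcon : GdR false X' (W + 1) (1 / 12) (ε / 8) (Rm X' D B (1 / 12) (δ / 2) m) (fG σ (GW a b m) N)
        (St false z (QS (-a) (-b) c)) := by
      by_contra hcc
      apply hBn
      rw [hB1, mem_filter, mem_Icc, St_GW a b σ hσ m c N hNc z]
      refine ⟨⟨hN1, hNX'⟩, ?_, ?_, hcc⟩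
      · rw [div_le_iff₀ hL0]
        have h1 : (X' : ℝ) ≤ N * 8 := by linarith
        refine h1.trans ?_
        apply mul_le_mul_of_nonneg_left _ (Nat.cast_nonneg _)
        linarith
      · intro p hp
        rw [loc_GW a b σ hσ m c N hNc p]
        exact hLS p (mem_pz.1 hp).2
    refine ⟨S, hSp, hSt, ?_⟩
    have hgo := k3 ν (by linarith) (by linarith) m (fG σ (GW a b m) N) (St false z (QS (-a) (-b) c)) S hS0.le hSd hcon
    intro u v hu hv hvs hvD hvu
    rw [hcabs] at hv hvs hvD hvu ⊢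
    have hv0 : 0 ≤ v := le_trans (by positivity) hv
    have hgo2 := hgo u v hu hv hvs hvD hvu
    rw [cnt_GW a b σ hσ m c N hNc u v hu hv0 (by
      intro t ht1 htv
      have f1 := GW_pos a b ha m hmb t ht1
      have f2 := GW_le a b ha m hmb t
      have f3 : (0 : ℝ) ≤ (gv (GW a b m) t : ℝ) := by
        have : (0 : ℤ) ≤ gv (GW a b m) t := by omega
        exact_mod_cast this
      have f4 : (gv (GW a b m) t : ℝ) ≤ 3 * a' * (t * (m + t)) := by
        rw [← ha'Z] at f2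
        rw [← ha'Z]
        exact_mod_cast f2
      have f5 : |(gv (GW a b m) t : ℝ)| ≤ ν / 4 := by
        rw [abs_of_nonneg f3]
        refine f4.trans ?_
        rw [le_div_iff₀ (by norm_num)]
        have ht0 : (0 : ℝ) ≤ t := Nat.cast_nonneg t
        have hm0 : (0 : ℝ) ≤ m := Nat.cast_nonneg m
        have f6 : (t : ℝ) * (m + t) ≤ (m + v) ^ 2 := by
          calc (t : ℝ) * (m + t) ≤ (m + v) * (m + v) := by
                apply mul_le_mul (by linarith) (by linarith) (by positivity) (by positivity)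
            _ = _ := by ring
        calc 3 * (a' : ℝ) * (t * (m + t)) * 4 ≤ 3 * (a' : ℝ) * (m + v) ^ 2 * 4 := by
              apply mul_le_mul_of_nonneg_right _ (by norm_num)
              exact mul_le_mul_of_nonneg_left f6 (by positivity)
          _ = (m + v) ^ 2 * (12 * a') := by ring
          _ ≤ (m + v) ^ 2 * Real.log ν ^ (D + B + 2) := by
              apply mul_le_mul_of_nonneg_left _ (by positivity)
              calc 12 * (a' : ℝ) ≤ Real.log ν := by linarith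
                _ ≤ Real.log ν ^ (D + B + 2) := le_self_pow₀ hl1 (by omega)
          _ ≤ ν := hvD
      have e3 : (gv (GF σ (GW a b m) N) t : ℝ) = N + σ * gv (GW a b m) t := by
        rw [gv_GF]
        push_cast
        ring
      have e5 : |(σ : ℝ) * gv (GW a b m) t| ≤ ν / 4 := by
        rcases hσ with h | h
        · rw [h]
          simpa using f5
        · rw [h]
          simpa using f5
      rw [abs_le] at e5
      have e6 : (0 : ℝ) < (gv (GF σ (GW a b m) N) t : ℝ) := by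
        rw [e3]
        linarith [e5.1, hNr.2]
      exact_mod_cast e6)]
    exact hgo2
  -- the size of the exceptional set
  have hc1 : ((Icc 1 X).filter (fun ν : ℕ => ((ν : ℤ) + σ * κ).toNat ∈ B1 ∧ 0 < (ν : ℤ) + σ * κ)).card ≤ B1.card := by
    apply card_le_card_of_injOn (fun ν : ℕ => ((ν : ℤ) + σ * κ).toNat)
    · intro ν hν
      exact (mem_filter.1 (mem_coe.1 hν)).2.1
    · intro ν hν ν' hν' h
      have g1 := (mem_filter.1 (mem_coe.1 hν)).2.2
      have g2 := (mem_filter.1 (mem_coe.1 hν')).2.2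
      simp only at h
      omega
  have hc2 : ((Icc 1 X).filter (fun ν : ℕ => σ * (ν : ℤ) ∈ Ex)).card ≤ Ex.card := by
    apply card_le_card_of_injOn (fun ν : ℕ => σ * (ν : ℤ))
    · intro ν hν
      exact (mem_filter.1 (mem_coe.1 hν)).2
    · intro ν hν ν' hν' h
      simp only at h
      rcases hσ with h' | h' <;> rw [h'] at h <;> omega
  have hcard := (card_le_card hsub).trans (card_union_le _ _)
  have hcardr : (((Icc 1 X).filter (fun ν : ℕ => (LS false a b (σ * ν) ∧ ¬ HoldM a b δ ε W (D + B + 2) m (σ * ν)) ∧ X ≤ 2 * ν)).card : ℝ) ≤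
      B1.card + Ex.card := by
    exact_mod_cast hcard.trans (add_le_add hc1 hc2)
  refine hcardr.trans ?_
  have hLA : 0 < L ^ A := by positivity
  have e1 : (X' : ℝ) / L ^ (A + 2) = (2 / L ^ 2) * (X / L ^ A) := by
    rw [hX'r, pow_add]
    field_simp
  have e2 : 2 * ((X' : ℝ) / ((1 : ℕ) * L ^ U)) ≤ (4 / L ^ 2) * (X / L ^ A) := by
    have e3 : (X' : ℝ) / ((1 : ℕ) * L ^ U) ≤ X' / L ^ (A + 2) := by
      push_cast
      rw [one_mul]
      apply div_le_div_of_nonneg_left hX'0.le (by positivity)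
      exact pow_le_pow_right₀ hL1 (by omega)
    rw [e1] at e3
    have : (4 / L ^ 2) * (X / L ^ A) = 2 * ((2 / L ^ 2) * (X / L ^ A)) := by ring
    linarith
  have e4 : (1 : ℝ) ≤ (2 / L ^ 2) * (X / L ^ A) := by
    rw [← e1, le_div_iff₀ (by positivity), one_mul]
    rw [one_mul] at k5
    refine k5.trans ?_
    rw [Real.sqrt_le_left (by linarith)]
    nlinarith
  have e5 : (8 / L ^ 2) * ((X : ℝ) / L ^ A) ≤ X / L ^ A := by
    apply mul_le_of_le_one_left (by positivity)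
    rw [div_le_one (by positivity)]
    nlinarith
  have e6 : (X : ℝ) / L ^ A ≤ X / Real.log X ^ A := by
    apply div_le_div_of_nonneg_left hX0.le
    · apply pow_pos
      apply Real.log_pos
      have : (1 : ℝ) < X := by exact_mod_cast (by omega : 1 < X)
      exact this
    · exact pow_le_pow_left₀ hlogX0 hlogXX' A
  have e7 : (8 / L ^ 2) * ((X : ℝ) / L ^ A) = (2 / L ^ 2) * (X / L ^ A) + (4 / L ^ 2) * (X / L ^ A) + (2 / L ^ 2) * (X / L ^ A) := by ring
  rw [e1] at q1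
  linarith

end Pool.Agent.H561.HO
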