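import Pool.Agent.H561.HO.W7

set_option autoImplicit false

/-! Short windows of quadratic polynomials with almost every constant term: both signs, all dyadic ranges. -/

namespace Pool.Agent.H561.HO

open Finset
open Pool.Agent.H373R2.T7
open Pool.Agent.H561.PG
open Pool.Agent.R460.SB (QS QS_per QS_perB)

open Classical in
/-- **Dyadic summation.** -/
theorem dyadicU (A X₀ : ℕ) : ∃ X₁ : ℕ, ∀ P : ℕ → Prop, (∀ X : ℕ, X₀ ≤ X →
    (((Icc 1 X).filter (fun m : ℕ => P m ∧ X ≤ 2 * m)).card : ℝ) ≤ X / Real.log X ^ (A + 1)) →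
    ∀ X : ℕ, X₁ ≤ X → (((Icc 1 X).filter P).card : ℝ) ≤ X / Real.log X ^ A := by
  obtain ⟨X2, h2⟩ := ev_L' (2 ^ (A + 4))
  obtain ⟨X3, h3⟩ := ev_log' A 2
  refine ⟨X2 + X3 + X₀ ^ 2 + 16, fun P h X hX => ?_⟩
  have a2 := h2 X (by omega)
  have a3 := h3 X (by omega)
  have hX0 : (0 : ℝ) < X := by exact_mod_cast (by omega : 0 < X)
  have hss : √(X : ℝ) * √(X : ℝ) = X := Real.mul_self_sqrt hX0.le
  have hs0 : 0 < √(X : ℝ) := Real.sqrt_pos.2 hX0
  have hsX0 : (X₀ : ℝ) ≤ √(X : ℝ) := by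
    apply Real.le_sqrt_of_sq_le
    have : X₀ ^ 2 ≤ X := by omega
    exact_mod_cast this
  have hs4 : 4 ≤ √(X : ℝ) := by
    apply Real.le_sqrt_of_sq_le
    have : 16 ≤ X := by omega
    have : (16 : ℝ) ≤ X := by exact_mod_cast this
    linarith
  obtain ⟨L, hLd⟩ : ∃ L, L = Real.log (X : ℝ) := ⟨_, rfl⟩
  rw [← hLd] at a2 a3 ⊢
  have h2A : (1 : ℝ) ≤ 2 ^ (A + 4) := one_le_pow₀ (by norm_num)
  have hL0 : 0 < L := by linarith
  obtain ⟨c, hc⟩ : ∃ c, c = 2 ^ (A + 1) / L ^ (A + 1) := ⟨_, rfl⟩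
  have hc0 : 0 < c := by rw [hc]; positivity
  have main : ∀ Y : ℕ, (((Icc 1 Y).filter P).card : ℝ) ≤ √(X : ℝ) + 2 * Y * c := by
    intro Y
    induction Y using Nat.strong_induction_on with
    | _ Y ih =>
      by_cases hY : (Y : ℝ) ≤ √(X : ℝ)
      · have e1 : (((Icc 1 Y).filter P).card : ℝ) ≤ Y := by
          have := card_filter_le (Icc 1 Y) P
          rw [Nat.card_Icc, Nat.add_sub_cancel] at this
          exact_mod_cast this
        have : 0 ≤ 2 * (Y : ℝ) * c := by positivity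
        linarith
      · push Not at hY
        have hY1 : 1 < Y := by
          have : (1 : ℝ) < Y := by linarith
          exact_mod_cast this
        have hY0 : (0 : ℝ) < Y := by linarith
        have hYX : X₀ ≤ Y := by
          have : (X₀ : ℝ) ≤ Y := by linarith
          exact_mod_cast this
        have e1 := ih (Y / 2) (by omega)
        have e2 := h Y hYX
        have e3 : (Icc 1 Y).filter P ⊆ (Icc 1 (Y / 2)).filter P ∪ (Icc 1 Y).filter (fun m : ℕ => P m ∧ Y ≤ 2 * m) := by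
          intro m hm
          rw [mem_filter, mem_Icc] at hm
          rw [mem_union, mem_filter, mem_filter, mem_Icc, mem_Icc]
          by_cases hh : Y ≤ 2 * m
          · right
            exact ⟨hm.1, hm.2, hh⟩
          · left
            exact ⟨⟨hm.1.1, by omega⟩, hm.2⟩
        have e4 : (((Icc 1 Y).filter P).card : ℝ) ≤ ((Icc 1 (Y / 2)).filter P).card +
            ((Icc 1 Y).filter (fun m : ℕ => P m ∧ Y ≤ 2 * m)).card := by
          exact_mod_cast (card_le_card e3).trans (card_union_le _ _)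
        have e5 : L / 2 ≤ Real.log Y := by
          have := Real.log_le_log hs0 hY.le
          rw [Real.log_sqrt hX0.le, ← hLd] at this
          exact this
        have e6 : (Y : ℝ) / Real.log Y ^ (A + 1) ≤ Y * c := by
          rw [hc]
          calc (Y : ℝ) / Real.log Y ^ (A + 1) ≤ Y / (L / 2) ^ (A + 1) := by gcongr
            _ = Y * (2 ^ (A + 1) / L ^ (A + 1)) := by
                rw [div_pow]
                field_simp
        have e7 : ((Y / 2 : ℕ) : ℝ) ≤ Y / 2 := Nat.cast_div_le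
        have e8 : 2 * ((Y / 2 : ℕ) : ℝ) * c ≤ 2 * (Y / 2) * c := by gcongr
        linarith
  refine (main X).trans ?_
  rw [hc]
  have e1 : √(X : ℝ) ≤ X / L ^ A / 2 := by
    rw [le_div_iff₀ (by norm_num), le_div_iff₀ (by positivity)]
    calc √(X : ℝ) * 2 * L ^ A = √(X : ℝ) * (2 * L ^ A) := by ring
      _ ≤ √(X : ℝ) * √(X : ℝ) := by gcongr
      _ = X := hss
  have e2 : 2 * (X : ℝ) * (2 ^ (A + 1) / L ^ (A + 1)) ≤ X / L ^ A / 2 := by
    have e3 : 2 * (X : ℝ) * (2 ^ (A + 1) / L ^ (A + 1)) = (2 ^ (A + 3) / L) * (X / L ^ A / 2) := by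
      rw [pow_succ L A]
      have : (2 : ℝ) ^ (A + 3) = 4 * 2 ^ (A + 1) := by ring
      rw [this]
      field_simp
      ring
    rw [e3]
    have e4 : (2 : ℝ) ^ (A + 3) / L ≤ 1 := by
      rw [div_le_one hL0]
      have : (2 : ℝ) ^ (A + 3) ≤ 2 ^ (A + 4) := pow_le_pow_right₀ (by norm_num) (by omega)
      linarith
    have : 0 ≤ (X : ℝ) / L ^ A / 2 := by positivity
    nlinarith
  linarith


lemma HoldM_mono (a b : ℤ) (δ δ' ε ε' : ℝ) (hδ : δ' ≤ δ) (hε : ε' ≤ ε) (hδ0 : 0 < δ') (W D m : ℕ) (c : ℤ) (hc : c ≠ 0)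
    (h : HoldM a b δ' ε' W D m c) : HoldM a b δ ε W D m c := by
  obtain ⟨S, h1, h2, h3⟩ := h
  refine ⟨S, h1, h2, fun u v hu hv hvs hvD hvu => ?_⟩
  have hc1 : (1 : ℝ) ≤ c.natAbs := by
    have : 1 ≤ c.natAbs := Int.natAbs_pos.2 hc
    exact_mod_cast this
  have hl0 : 0 ≤ Real.log c.natAbs := Real.log_nonneg hc1
  have hvs' : (c.natAbs : ℝ) ^ (1 / 4 + δ') ≤ v * (m + v) :=
    (Real.rpow_le_rpow_of_exponent_le hc1 (by linarith)).trans hvs
  refine (h3 u v hu hv hvs' hvD hvu).trans ?_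
  have hv0 : 0 ≤ v := le_trans (by positivity) hv
  have hvu0 : 0 ≤ v - u := (div_nonneg hv0 (pow_nonneg hl0 W)).trans hvu
  exact mul_le_mul_of_nonneg_right hε (div_nonneg (mul_nonneg h1.le hvu0) hl0)

open Classical in
/-- **Short windows of quadratic polynomials with almost every constant term.** -/
theorem quad_win (a b : ℤ) (ha : 0 < a) (W A : ℕ) (δ ε : ℝ) (hδ : 0 < δ) (hε : 0 < ε) :
    ∃ D X₀ : ℕ, ∀ X : ℕ, X₀ ≤ X → ∀ m : ℕ, b.natAbs + 1 ≤ m →
    (((Icc (-(X : ℤ)) X).filter (fun c : ℤ => c ≠ 0 ∧ LS false a b c ∧ ¬ HoldM a b δ ε W D m c)).card : ℝ) ≤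
      X / Real.log X ^ A := by
  obtain ⟨δ', hδ'⟩ : ∃ δ', δ' = min δ 1 := ⟨_, rfl⟩
  obtain ⟨ε', hε'⟩ : ∃ ε', ε' = min ε 1 := ⟨_, rfl⟩
  have hδ'0 : 0 < δ' := by rw [hδ']; positivity
  have hε'0 : 0 < ε' := by rw [hε']; positivity
  obtain ⟨D, X0, h⟩ := mainW a b ha W (A + 2) δ' ε' hδ'0 (by rw [hδ']; exact min_le_right _ _) hε'0
    (by rw [hε']; exact min_le_right _ _)
  obtain ⟨n1, h1⟩ := dyadicU (A + 1) X0
  have hdy : ∀ σ : ℤ, (σ = 1 ∨ σ = -1) → ∀ m : ℕ, b.natAbs + 1 ≤ m → ∀ X : ℕ, n1 ≤ X →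
      (((Icc 1 X).filter (fun ν : ℕ => LS false a b (σ * ν) ∧ ¬ HoldM a b δ' ε' W D m (σ * ν))).card : ℝ) ≤ X / Real.log X ^ (A + 1) := by
    intro σ hσ m hm X hX
    have h2 := h1 (fun ν : ℕ => LS false a b (σ * ν) ∧ ¬ HoldM a b δ' ε' W D m (σ * ν)) (by
      intro X hX
      refine le_trans (le_of_eq ?_) (h X hX σ hσ m hm)
      congr 2
      ext ν
      simp only [mem_filter]) X hX
    refine le_trans (le_of_eq ?_) h2
    congr 2
    ext ν
    simp only [mem_filter]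
  obtain ⟨n3, h3⟩ := ev_L' 2
  refine ⟨D, n1 + n3 + 3, fun X hX m hm => ?_⟩
  have k1 := hdy 1 (Or.inl rfl) m hm X (by omega)
  have k2 := hdy (-1) (Or.inr rfl) m hm X (by omega)
  have k3 := h3 X (by omega)
  have hX0 : (0 : ℝ) < X := by exact_mod_cast (by omega : 0 < X)
  obtain ⟨F1, hF1⟩ : ∃ F1, F1 = (Icc 1 X).filter (fun ν : ℕ => LS false a b (1 * ν) ∧ ¬ HoldM a b δ' ε' W D m (1 * ν)) := ⟨_, rfl⟩
  obtain ⟨F2, hF2⟩ : ∃ F2, F2 = (Icc 1 X).filter (fun ν : ℕ => LS false a b (-1 * ν) ∧ ¬ HoldM a b δ' ε' W D m (-1 * ν)) := ⟨_, rfl⟩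
  rw [← hF1] at k1
  rw [← hF2] at k2
  have hsub : (Icc (-(X : ℤ)) X).filter (fun c : ℤ => c ≠ 0 ∧ LS false a b c ∧ ¬ HoldM a b δ ε W D m c) ⊆
      F1.image (fun m : ℕ => (m : ℤ)) ∪ F2.image (fun m : ℕ => -(m : ℤ)) := by
    intro c hc
    rw [mem_filter, mem_Icc] at hc
    obtain ⟨⟨g1, g2⟩, g3, g4, g5⟩ := hc
    have g6 : ¬ HoldM a b δ' ε' W D m c := by
      intro h
      apply g5
      exact HoldM_mono a b δ δ' ε ε' (by rw [hδ']; exact min_le_left _ _) (by rw [hε']; exact min_le_left _ _) hδ'0 W D m c g3 h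
    rw [mem_union, mem_image, mem_image]
    rcases lt_or_gt_of_ne g3 with h | h
    · right
      refine ⟨c.natAbs, ?_, by omega⟩
      have e : (-1 : ℤ) * ((c.natAbs : ℕ) : ℤ) = c := by omega
      rw [hF2, mem_filter, mem_Icc, e]
      exact ⟨⟨by omega, by omega⟩, g4, g6⟩
    · left
      refine ⟨c.natAbs, ?_, by omega⟩
      have e : (1 : ℤ) * ((c.natAbs : ℕ) : ℤ) = c := by omega
      rw [hF1, mem_filter, mem_Icc, e]
      exact ⟨⟨by omega, by omega⟩, g4, g6⟩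
  have hcard : (((Icc (-(X : ℤ)) X).filter (fun c : ℤ => c ≠ 0 ∧ LS false a b c ∧ ¬ HoldM a b δ ε W D m c)).card : ℝ) ≤ F1.card + F2.card := by
    exact_mod_cast (card_le_card hsub).trans ((card_union_le _ _).trans (add_le_add card_image_le card_image_le))
  refine hcard.trans ?_
  have hLA : 0 < Real.log (X : ℝ) ^ A := pow_pos (by linarith) A
  calc (F1.card : ℝ) + F2.card ≤ X / Real.log X ^ (A + 1) + X / Real.log X ^ (A + 1) := add_le_add k1 k2
    _ = (2 / Real.log X) * (X / Real.log X ^ A) := by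
        rw [pow_succ]
        field_simp
        ring
    _ ≤ 1 * (X / Real.log X ^ A) := by
        apply mul_le_mul_of_nonneg_right _ (by positivity)
        rw [div_le_one (by linarith)]
        exact k3
    _ = _ := one_mul _

end Pool.Agent.H561.HO
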